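import Pool.Agent.Lib.MP_0b03d8_co.Vand

set_option autoImplicit false

open Finset Filter Topology

namespace Pool.Agent.Lib.MP_0b03d8_co

noncomputable def J (t : ℝ) : ℝ := t * Real.log t - t
noncomputable def K (t : ℝ) : ℝ := t ^ 2 * Real.log t / 2 - 3 * t ^ 2 / 4

lemma J_deriv {t : ℝ} (ht : t ≠ 0) : HasDerivAt J (Real.log t) t := by
  exact ((Real.hasDerivAt_mul_log ht).sub (hasDerivAt_id t)).congr_deriv (by ring)

lemma K_deriv {t : ℝ} (ht : t ≠ 0) : HasDerivAt K (J t) t := by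
  have h := ((((hasDerivAt_id t).mul (Real.hasDerivAt_mul_log ht)).div_const 2).sub
    (((hasDerivAt_pow 2 t).const_mul 3).div_const 4))
  have e : K = fun x : ℝ => id x * (x * Real.log x) / 2 - 3 * x ^ 2 / 4 := by
    ext x; simp only [K, id]; ring
  rw [e]
  refine h.congr_deriv ?_
  simp only [J, id]
  push_cast
  ring

lemma K_cont : Continuous K := by
  have e : K = fun x : ℝ => x * (x * Real.log x) / 2 - 3 * x ^ 2 / 4 := by
    ext x; simp only [K]; ring
  rw [e]
  have := Real.continuous_mul_log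
  fun_prop

lemma J_mono : MonotoneOn J (Set.Ici 1) := by
  refine monotoneOn_of_deriv_nonneg (convex_Ici 1) ?_ ?_ ?_
  · exact fun t ht => (J_deriv (by have : (1 : ℝ) ≤ t := ht; linarith)).continuousAt.continuousWithinAt
  · intro t ht
    rw [interior_Ici] at ht
    exact (J_deriv (by have : (1 : ℝ) < t := ht; linarith)).differentiableAt.differentiableWithinAt
  · intro t ht
    rw [interior_Ici] at ht
    have : (1 : ℝ) < t := ht
    rw [(J_deriv (by linarith)).deriv]
    exact Real.log_nonneg this.le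

lemma riemann {F f : ℝ → ℝ} (hF : ∀ t, 1 ≤ t → HasDerivAt F (f t) t) (hf : MonotoneOn f (Set.Ici 1))
    {y τ : ℝ} (hy : 1 ≤ y) (hτ : 0 < τ) (B : ℕ) :
    0 ≤ F (y + τ * B) - F y - τ * ∑ j ∈ range B, f (y + τ * j) ∧
    F (y + τ * B) - F y - τ * ∑ j ∈ range B, f (y + τ * j) ≤ τ * (f (y + τ * B) - f y) := by
  induction B with
  | zero => simp
  | succ B ih =>
    have h0 : 1 ≤ y + τ * B := by have : 0 ≤ τ * B := by positivity
                                  linarith
    have hlt : y + τ * B < y + τ * (B + 1 : ℕ) := by push_cast; nlinarith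
    obtain ⟨ξ, hξ, e⟩ := exists_hasDerivAt_eq_slope F f hlt
      (fun t ht => (hF t (h0.trans ht.1)).continuousAt.continuousWithinAt)
      (fun t ht => hF t (h0.trans ht.1.le))
    have e2 : y + τ * (B + 1 : ℕ) - (y + τ * B) = τ := by push_cast; ring
    rw [e2, eq_div_iff hτ.ne'] at e
    have m1 : f (y + τ * B) ≤ f ξ := hf h0 (h0.trans hξ.1.le) hξ.1.le
    have m2 : f ξ ≤ f (y + τ * (B + 1 : ℕ)) := hf (h0.trans hξ.1.le) (h0.trans hlt.le) hξ.2.le
    rw [sum_range_succ]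
    constructor <;> nlinarith [ih.1, ih.2]

lemma log_mono : MonotoneOn Real.log (Set.Ici 1) := fun a ha _ _ hab =>
  Real.log_le_log (by have : (1 : ℝ) ≤ a := ha; linarith) hab

lemma riemann_log {y τ : ℝ} (hy : 1 ≤ y) (hτ : 0 < τ) (B : ℕ) {z : ℝ} (hz : y + τ * B ≤ z) :
    |J (y + τ * B) - J y - τ * ∑ j ∈ range B, Real.log (y + τ * j)| ≤ τ * Real.log z := by
  have h := riemann (fun t ht => J_deriv (by linarith)) log_mono hy hτ B
  have h0 : 0 ≤ τ * B := by positivity
  rw [abs_of_nonneg h.1]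
  refine h.2.trans (mul_le_mul_of_nonneg_left ?_ hτ.le)
  have := Real.log_nonneg hy
  have := Real.log_le_log (by linarith) hz
  linarith

lemma riemann_J {y τ : ℝ} (hy : 1 ≤ y) (hτ : 0 < τ) (B : ℕ) {z : ℝ} (hz : y + τ * B ≤ z) :
    |K (y + τ * B) - K y - τ * ∑ j ∈ range B, J (y + τ * j)| ≤ τ * (z * Real.log z) := by
  have h := riemann (fun t ht => K_deriv (by linarith)) J_mono hy hτ B
  have h0 : 0 ≤ τ * B := by positivity
  rw [abs_of_nonneg h.1]
  refine h.2.trans (mul_le_mul_of_nonneg_left ?_ hτ.le)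
  have h1 : J 1 ≤ J y := J_mono (le_refl (1 : ℝ)) hy hy
  have h2 : J (y + τ * B) ≤ J z := J_mono (show (1 : ℝ) ≤ _ by linarith)
    (show (1 : ℝ) ≤ _ by linarith) hz
  simp only [J, Real.log_one] at h1 h2 ⊢
  linarith

lemma cross_est {d σ τ : ℝ} (hd : 1 ≤ d) (hσ : 1 ≤ σ) (hτ : 1 ≤ τ) (A B : ℕ) :
    |K (d + σ * A + τ * B) - K (d + σ * A) - K (d + τ * B) + K d -
      σ * τ * ∑ i ∈ range A, ∑ j ∈ range B, Real.log (d + σ * i + τ * j)| ≤
      (τ + 2 * σ) * ((d + σ * A + τ * B) * Real.log (d + σ * A + τ * B)) := by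
  set z := d + σ * A + τ * B with hz
  have hA : 0 ≤ σ * A := by positivity
  have hB : 0 ≤ τ * B := by positivity
  have hlog : 0 ≤ Real.log z := Real.log_nonneg (by linarith)
  have h1 := riemann_J (y := d + τ * B) (by linarith) (by linarith : 0 < σ) A (z := z) (by linarith)
  have h2 := riemann_J hd (by linarith : 0 < σ) A (z := z) (by linarith)
  have h3 : |∑ i ∈ range A, (J (d + σ * i + τ * B) - J (d + σ * i) -
      τ * ∑ j ∈ range B, Real.log (d + σ * i + τ * j))| ≤ A * (τ * Real.log z) := by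
    refine (abs_sum_le_sum_abs _ _).trans ?_
    rw [← nsmul_eq_mul, ← card_range A, ← sum_const, card_range]
    refine sum_le_sum fun i hi => ?_
    have hi' : (i : ℝ) ≤ A := by exact_mod_cast (mem_range.1 hi).le
    have : 0 ≤ σ * i := by positivity
    exact riemann_log (by linarith) (by linarith) B (by nlinarith)
  rw [sum_sub_distrib, sum_sub_distrib, ← mul_sum] at h3
  have e1 : ∑ i ∈ range A, J (d + τ * B + σ * i) = ∑ i ∈ range A, J (d + σ * i + τ * B) :=
    sum_congr rfl fun i _ => by ring_nf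
  rw [e1, show d + τ * B + σ * A = z by ring] at h1
  rw [abs_le] at h1 h2 h3 ⊢
  have h4 : σ * (A * (τ * Real.log z)) ≤ τ * (z * Real.log z) := by
    have : σ * A ≤ z := by linarith
    have := mul_le_mul_of_nonneg_right this (mul_nonneg (by linarith : 0 ≤ τ) hlog)
    linarith
  have h5 := mul_le_mul_of_nonneg_left h3.1 (by linarith : 0 ≤ σ)
  have h6 := mul_le_mul_of_nonneg_left h3.2 (by linarith : 0 ≤ σ)
  constructor <;> nlinarith

lemma self_est (A : ℕ) :
    |K (1 + A) - K 1 + A - ∑ i ∈ range A, ∑ j ∈ range i, Real.log (1 + j)| ≤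
      2 * ((1 + A) * Real.log (1 + A)) := by
  have hA : (0 : ℝ) ≤ A := by positivity
  have hlog : 0 ≤ Real.log (1 + A) := Real.log_nonneg (by linarith)
  have h2 := riemann_J le_rfl one_pos A (z := 1 + A) (by linarith)
  have h3 : |∑ i ∈ range A, (J (1 + 1 * i) - J 1 -
      1 * ∑ j ∈ range i, Real.log (1 + 1 * j))| ≤ A * (1 * Real.log (1 + A)) := by
    refine (abs_sum_le_sum_abs _ _).trans ?_
    rw [← nsmul_eq_mul, ← card_range A, ← sum_const, card_range]
    refine sum_le_sum fun i hi => ?_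
    have hi' : (i : ℝ) ≤ A := by exact_mod_cast (mem_range.1 hi).le
    exact riemann_log le_rfl one_pos i (by linarith)
  have hJ : J 1 = -1 := by simp [J]
  simp only [one_mul, sum_sub_distrib, hJ, sum_const, card_range, nsmul_eq_mul] at h2 h3
  rw [abs_le] at h2 h3 ⊢
  constructor <;> nlinarith [h2.1, h2.2, h3.1, h3.2]

lemma K_scale {z c : ℝ} (hz : 0 < z) (hc : 0 < c) :
    K z / c ^ 2 = K (z / c) + (z / c) ^ 2 * Real.log c / 2 := by
  simp only [K, Real.log_div hz.ne' hc.ne']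
  field_simp
  ring

lemma log_div_tendsto {c : ℕ → ℝ} (hc : Tendsto c atTop atTop) :
    Tendsto (fun k => Real.log (c k) / c k) atTop (𝓝 0) := by
  have := Real.isLittleO_log_id_atTop.tendsto_div_nhds_zero
  exact this.comp hc

lemma err_tendsto {c z : ℕ → ℝ} (hc : Tendsto c atTop atTop) (hz : ∀ k, 0 < z k) {θ : ℝ}
    (h : Tendsto (fun k => z k / c k) atTop (𝓝 θ)) :
    Tendsto (fun k => z k * Real.log (z k) / c k ^ 2) atTop (𝓝 0) := by
  have h1 := ((Real.continuous_mul_log.tendsto θ).comp h).mul hc.inv_tendsto_atTop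
  have h2 := h.mul (log_div_tendsto hc)
  have h3 := h1.add h2
  simp only [mul_zero, add_zero] at h3
  refine h3.congr' ?_
  filter_upwards [hc.eventually_gt_atTop 0] with k hk
  simp only [Function.comp, Pi.inv_apply, Real.log_div (hz k).ne' hk.ne']
  field_simp
  ring

lemma tendsto_of_abs_le {u v e : ℕ → ℝ} {l : ℝ} (hv : Tendsto v atTop (𝓝 l))
    (he : Tendsto e atTop (𝓝 0)) (h : ∀ᶠ k in atTop, |v k - u k| ≤ e k) :
    Tendsto u atTop (𝓝 l) := by
  have h1 : Tendsto (fun k => v k - u k) atTop (𝓝 0) :=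
    squeeze_zero_norm' (by simpa using h) he
  simpa using hv.sub h1

lemma cross_tendsto {c d : ℕ → ℝ} {A B : ℕ → ℕ} {σ τ γ α β : ℝ} (hc : Tendsto c atTop atTop)
    (hd : ∀ k, 1 ≤ d k) (hσ : 1 ≤ σ) (hτ : 1 ≤ τ) (hγ : Tendsto (fun k => d k / c k) atTop (𝓝 γ))
    (hα : Tendsto (fun k => (A k : ℝ) / c k) atTop (𝓝 α))
    (hβ : Tendsto (fun k => (B k : ℝ) / c k) atTop (𝓝 β)) :
    Tendsto (fun k => (∑ i ∈ range (A k), ∑ j ∈ range (B k),
      Real.log ((d k + σ * i + τ * j) / c k)) / c k ^ 2) atTop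
      (𝓝 ((K (γ + σ * α + τ * β) - K (γ + σ * α) - K (γ + τ * β) + K γ) / (σ * τ))) := by
  have t1 : Tendsto (fun k => (d k + σ * A k + τ * B k) / c k) atTop (𝓝 (γ + σ * α + τ * β)) := by
    refine ((hγ.add (hα.const_mul σ)).add (hβ.const_mul τ)).congr fun k => by ring
  have t2 : Tendsto (fun k => (d k + σ * A k) / c k) atTop (𝓝 (γ + σ * α)) := by
    refine (hγ.add (hα.const_mul σ)).congr fun k => by ring
  have t3 : Tendsto (fun k => (d k + τ * B k) / c k) atTop (𝓝 (γ + τ * β)) := by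
    refine (hγ.add (hβ.const_mul τ)).congr fun k => by ring
  have p2 : ∀ k (i j : ℕ), 0 < d k + σ * i + τ * j := fun k i j => by
    have := hd k
    have : 0 ≤ σ * i := by positivity
    have : 0 ≤ τ * j := by positivity
    linarith
  have hστ : 0 < σ * τ := by positivity
  have hv := (((((K_cont.tendsto _).comp t1).sub ((K_cont.tendsto _).comp t2)).sub
    ((K_cont.tendsto _).comp t3)).add ((K_cont.tendsto _).comp hγ)).div_const (σ * τ)
  have he := ((err_tendsto hc (fun k => p2 k (A k) (B k)) t1).const_mul (τ + 2 * σ)).div_const (σ * τ)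
  simp only [mul_zero, zero_div] at he
  refine tendsto_of_abs_le hv he ?_
  filter_upwards [hc.eventually_gt_atTop 0] with k hk
  have h := cross_est (hd k) hσ hτ (A k) (B k)
  have q1 := K_scale (p2 k (A k) (B k)) hk
  have q2 := K_scale (p2 k (A k) 0) hk
  have q3 := K_scale (p2 k 0 (B k)) hk
  have q4 := K_scale (p2 k 0 0) hk
  simp only [Nat.cast_zero, mul_zero, add_zero] at q2 q3 q4
  have e : ∑ i ∈ range (A k), ∑ j ∈ range (B k), Real.log ((d k + σ * i + τ * j) / c k) =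
      ∑ i ∈ range (A k), ∑ j ∈ range (B k), Real.log (d k + σ * i + τ * j) -
        A k * (B k * Real.log (c k)) := by
    simp only [Real.log_div (p2 k _ _).ne' hk.ne', sum_sub_distrib, sum_const, card_range,
      nsmul_eq_mul]
  simp only [Function.comp]
  rw [e, ← sub_eq_iff_eq_add.2 q1, ← sub_eq_iff_eq_add.2 q2, ← sub_eq_iff_eq_add.2 q3,
    ← sub_eq_iff_eq_add.2 q4]
  have hc2 : 0 < c k ^ 2 * (σ * τ) := by positivity
  rw [← mul_div_assoc, div_div, le_div_iff₀ hc2, ← abs_of_pos hc2, ← abs_mul]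
  refine le_of_eq_of_le (congrArg abs ?_) h
  field_simp
  ring

lemma self_tendsto {c : ℕ → ℝ} {A : ℕ → ℕ} {α : ℝ} (hc : Tendsto c atTop atTop)
    (hα : Tendsto (fun k => (A k : ℝ) / c k) atTop (𝓝 α)) :
    Tendsto (fun k => (∑ i ∈ range (A k), ∑ j ∈ range i, Real.log ((1 + j) / c k)) / c k ^ 2) atTop
      (𝓝 (K α)) := by
  have hi := hc.inv_tendsto_atTop
  have t1 : Tendsto (fun k => (1 + A k : ℝ) / c k) atTop (𝓝 α) := by
    have := hi.add hα
    rw [zero_add] at this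
    exact this.congr fun k => by simp only [Pi.inv_apply]; ring
  have hv := ((((K_cont.tendsto _).comp t1).sub ((hi.mul hi).const_mul (K 1))).add
    (hα.mul hi)).add ((((hα.const_mul 3).add hi).mul (log_div_tendsto hc)).div_const 2)
  simp only [mul_zero, sub_zero, add_zero, zero_div] at hv
  have he := (err_tendsto hc (z := fun k => 1 + A k) (fun k => by positivity) t1).const_mul 2
  simp only [mul_zero] at he
  refine tendsto_of_abs_le hv he ?_
  filter_upwards [hc.eventually_gt_atTop 0] with k hk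
  have h := self_est (A k)
  have q1 := K_scale (show (0 : ℝ) < 1 + A k by positivity) hk
  have s : ∀ n : ℕ, ∑ i ∈ range n, (i : ℝ) = n * (n - 1) / 2 := by
    intro n
    induction n with
    | zero => simp
    | succ n ih => rw [sum_range_succ, ih]; push_cast; ring
  have e : ∑ i ∈ range (A k), ∑ j ∈ range i, Real.log ((1 + j) / c k) =
      ∑ i ∈ range (A k), ∑ j ∈ range i, Real.log (1 + j) -
        A k * (A k - 1) / 2 * Real.log (c k) := by
    have : ∀ j : ℕ, (1 + j : ℝ) ≠ 0 := fun j => by positivity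
    simp only [Real.log_div (this _) hk.ne', sum_sub_distrib, sum_const, card_range,
      nsmul_eq_mul, ← sum_mul, s]
  simp only [Function.comp, Pi.inv_apply]
  rw [e, ← sub_eq_iff_eq_add.2 q1]
  have hc2 : 0 < c k ^ 2 := by positivity
  rw [← mul_div_assoc 2, le_div_iff₀ hc2]
  refine le_of_eq_of_le ((congrArg _ (abs_of_pos hc2).symm).trans
    ((abs_mul _ _).symm.trans (congrArg abs ?_))) h
  field_simp
  ring

/-- Arithmetic progression. -/
def AP (a : ℤ) (σ A : ℕ) : Finset ℤ := (range A).image fun i : ℕ => a + σ * i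

lemma mem_AP {a : ℤ} {σ A : ℕ} {u : ℤ} : u ∈ AP a σ A ↔ ∃ i : ℕ, i < A ∧ u = a + σ * i := by
  simp [AP, eq_comm]

lemma AP_inj (a : ℤ) {σ : ℕ} (hσ : 1 ≤ σ) : Function.Injective fun i : ℕ => a + σ * (i : ℤ) := by
  intro i j h
  have h1 : (σ : ℤ) * i = σ * j := by simpa using h
  have := mul_left_cancel₀ (by omega : (σ : ℤ) ≠ 0) h1
  omega

lemma card_AP (a : ℤ) {σ : ℕ} (hσ : 1 ≤ σ) (A : ℕ) : (AP a σ A).card = A := by
  rw [AP, card_image_of_injective _ (AP_inj a hσ), card_range]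

lemma Ico_eq_AP (a b : ℤ) (A : ℕ) (h : b = a + A) : Ico a b = AP a 1 A := by
  ext u
  rw [mem_AP, mem_Ico]
  exact ⟨fun h => ⟨(u - a).toNat, by omega, by omega⟩, by rintro ⟨i, hi, rfl⟩; omega⟩

lemma Cr_AP (c : ℝ) (a b d : ℤ) {σ τ : ℕ} (hσ : 1 ≤ σ) (hτ : 1 ≤ τ) (A B : ℕ) (hd : 0 ≤ d)
    (h : b + σ = a + σ * A + d) : Cr c (AP a σ A) (AP b τ B) =
      ∏ i ∈ range A, ∏ j ∈ range B, ((d : ℝ) + σ * i + τ * j) / c := by
  rw [Cr, AP, prod_image fun _ _ _ _ h => AP_inj a hσ h, ← prod_range_reflect]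
  refine prod_congr rfl fun i hi => ?_
  rw [AP, prod_image fun _ _ _ _ h => AP_inj b hτ h]
  refine prod_congr rfl fun j _ => ?_
  have hi' := mem_range.1 hi
  have e : ((A - 1 - i : ℕ) : ℝ) = A - 1 - i := by
    rw [Nat.cast_sub (by omega), Nat.cast_sub (by omega)]; simp
  have h' : (b : ℝ) + σ = a + σ * A + d := by exact_mod_cast h
  have hd' : (0 : ℝ) ≤ d := by exact_mod_cast hd
  push_cast
  rw [e, show (b : ℝ) + τ * j - (a + σ * (A - 1 - i)) = d + σ * i + τ * j by linarith,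
    abs_of_nonneg (by positivity)]

lemma Del_AP (c : ℝ) (a : ℤ) {σ : ℕ} (hσ : 1 ≤ σ) (A : ℕ) :
    Del c (AP a σ A) = ∏ i ∈ range A, ∏ j ∈ range i, (1 + j : ℝ) / (c / σ) := by
  induction A with
  | zero => simp [AP, Del]
  | succ A ih =>
    have e : AP a σ (A + 1) = AP a σ A ∪ AP (a + σ * A) 1 1 := by
      simp [AP, range_add_one, union_comm]
    have hd : Disjoint (AP a σ A) (AP (a + σ * A) 1 1) := by
      rw [Finset.disjoint_left]
      intro u h1 h2
      obtain ⟨i, hi, rfl⟩ := mem_AP.1 h1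
      obtain ⟨j, hj, h⟩ := mem_AP.1 h2
      obtain rfl : j = 0 := by omega
      have := AP_inj a hσ (a₁ := i) (a₂ := A) (by simpa using h)
      omega
    rw [e, Del_union _ hd, ih, Cr_AP c _ _ σ hσ le_rfl A 1 (by positivity) rfl, prod_range_succ]
    have h1 : Del c (AP (a + σ * A) 1 1) = 1 := by simp [AP, Del]
    rw [h1, mul_one]
    congr 1
    refine prod_congr rfl fun i _ => ?_
    have : (σ : ℝ) ≠ 0 := by positivity
    simp
    field_simp

lemma Del_AP_tendsto {c : ℕ → ℝ} {A : ℕ → ℕ} {α : ℝ} (hc : Tendsto c atTop atTop) (a : ℕ → ℤ)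
    {σ : ℕ} (hσ : 1 ≤ σ) (hα : Tendsto (fun k => (A k : ℝ) / c k) atTop (𝓝 α)) :
    Tendsto (fun k => Real.log (Del (c k) (AP (a k) σ (A k))) / c k ^ 2) atTop
      (𝓝 (K (σ * α) / σ ^ 2)) := by
  have hσ' : (0 : ℝ) < σ := by positivity
  have h := (self_tendsto (c := fun k => c k / σ) (A := A) (α := σ * α) (hc.atTop_div_const hσ')
    ((hα.const_mul (σ : ℝ)).congr fun k => by rw [div_div_eq_mul_div]; ring)).div_const ((σ : ℝ) ^ 2)
  refine h.congr' ?_
  filter_upwards [hc.eventually_gt_atTop 0] with k hk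
  rw [Del_AP _ _ hσ, Real.log_prod fun i _ => (prod_pos fun j _ => by positivity).ne']
  have p : ∀ j : ℕ, (1 + j : ℝ) / (c k / σ) ≠ 0 := fun j => by positivity
  rw [sum_congr rfl fun i _ => Real.log_prod fun j _ => p j, div_div, div_pow,
    div_mul_cancel₀ _ (by positivity)]

lemma Hf_tendsto {c : ℕ → ℝ} {A : ℕ → ℕ} {α : ℝ} (hc : Tendsto c atTop atTop)
    (hα : Tendsto (fun k => (A k : ℝ) / c k) atTop (𝓝 α)) :
    Tendsto (fun k => Real.log (Hf (c k) (A k)) / c k ^ 2) atTop (𝓝 (K α)) := by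
  have := Del_AP_tendsto hc (fun _ => 0) le_rfl hα
  simp only [Nat.cast_one, one_mul, one_pow, div_one] at this
  refine this.congr fun k => ?_
  rw [Hf, Ico_eq_AP 0 _ (A k) (by simp)]

lemma Cr_AP_tendsto {c : ℕ → ℝ} {A B : ℕ → ℕ} {γ α β : ℝ} (hc : Tendsto c atTop atTop)
    (a b d : ℕ → ℤ) {σ τ : ℕ} (hσ : 1 ≤ σ) (hτ : 1 ≤ τ) (hd : ∀ k, 1 ≤ d k)
    (h : ∀ k, b k + σ = a k + σ * A k + d k)
    (hγ : Tendsto (fun k => (d k : ℝ) / c k) atTop (𝓝 γ))
    (hα : Tendsto (fun k => (A k : ℝ) / c k) atTop (𝓝 α))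
    (hβ : Tendsto (fun k => (B k : ℝ) / c k) atTop (𝓝 β)) :
    Tendsto (fun k => Real.log (Cr (c k) (AP (a k) σ (A k)) (AP (b k) τ (B k))) / c k ^ 2) atTop
      (𝓝 ((K (γ + σ * α + τ * β) - K (γ + σ * α) - K (γ + τ * β) + K γ) / (σ * τ))) := by
  have hd' : ∀ k, (1 : ℝ) ≤ d k := fun k => by exact_mod_cast hd k
  refine (cross_tendsto (d := fun k => d k) hc hd' (by exact_mod_cast hσ) (by exact_mod_cast hτ)
    hγ hα hβ).congr' ?_
  filter_upwards [hc.eventually_gt_atTop 0] with k hk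
  have p : ∀ i j : ℕ, 0 < ((d k : ℝ) + σ * i + τ * j) / c k := fun i j => by
    have := hd' k
    positivity
  rw [Cr_AP _ _ _ (d k) hσ hτ _ _ (by have := hd k; omega) (h k),
    Real.log_prod fun i _ => (prod_pos fun j _ => p i j).ne',
    sum_congr rfl fun i _ => Real.log_prod fun j _ => (p i j).ne']

end Pool.Agent.Lib.MP_0b03d8_co
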