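import Mathlib

/-!
Definitions for the doubly intruded regular hexagon.

A pair of integers `(u, v)` stands for the point `u * (1, 0) + v * (1/2, √3/2)` of the triangular
lattice, so the lines `v = const` are the horizontal lattice lines.
-/

set_option autoImplicit false

open Filter Topology

namespace Pool.Agent.Lib.MP_0b03d8_co

/-- A unit triangle: `(u, v, true)` points up, `(u, v, false)` points down (see `verts`). -/
abbrev Tri : Type := ℤ × ℤ × Bool

/-- The three vertices of a unit triangle. -/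
def verts (t : Tri) : Finset (ℤ × ℤ) :=
  if t.2.2 = true then {(t.1, t.2.1), (t.1 + 1, t.2.1), (t.1, t.2.1 + 1)}
  else {(t.1, t.2.1 + 1), (t.1 + 1, t.2.1 + 1), (t.1 + 1, t.2.1)}

/-- A lozenge is a pair of unit triangles sharing an edge (exactly two vertices). -/
def IsLozenge (l : Set Tri) : Prop :=
  ∃ s t : Tri, (verts s ∩ verts t).card = 2 ∧ l = {s, t}

/-- The lozenge tilings of a region (a set of unit triangles). -/
def Tilings (R : Set Tri) : Set (Set (Set Tri)) :=
  {S | (∀ l ∈ S, IsLozenge l ∧ l ⊆ R) ∧ ∀ t ∈ R, ∃! l, l ∈ S ∧ t ∈ l}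

/-- The regular hexagon of side `L` centred at the origin; its western and eastern vertices are
`(-L, 0)` and `(L, 0)`. -/
def hexagon (L : ℕ) : Set Tri :=
  {t | ∀ P ∈ verts t, |P.1| ≤ (L : ℤ) ∧ |P.2| ≤ (L : ℤ) ∧ |P.1 + P.2| ≤ (L : ℤ)}

/-- The unit triangle with horizontal side from `(u, x)` to `(u + 1, x)`: the one above that side
if `i` is even, the one below it if `i` is odd. -/
def lobe (i : ℕ) (u x : ℤ) : Tri :=
  if Even i then (u, x, true) else (u, x - 1, false)

/-- The side `L = N + (m + n) / 2` of the hexagon. -/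
def side (N m n : ℕ) : ℕ := N + (m + n) / 2

/-- The hexagon with the two ferns removed. The line `v = x` meets the hexagon in the segment
from `(-L, x)` to `(L - x, x)`. -/
def region (N m n x : ℕ) : Set Tri :=
  hexagon (side N m n) \
    ({t | ∃ i : ℕ, i < m ∧ t = lobe i (-(side N m n : ℤ) + i) x} ∪
     {t | ∃ i : ℕ, i < n ∧ t = lobe i ((side N m n : ℤ) - x - 1 - i) x})

/-- The number `T(N, m, n, x)` of lozenge tilings. -/
noncomputable def numTilings (N m n x : ℕ) : ℕ := (Tilings (region N m n x)).ncard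

/-- Parameter sequences with `L → ∞`, `M / L → p`, `x / L → h`, `m / n → r`. -/
def IsParamSeq (p h r : ℝ) (N m n x : ℕ → ℕ) : Prop :=
  (∀ k, Even (m k) ∧ Even (n k) ∧ x k ≤ N k) ∧
  Tendsto (fun k => side (N k) (m k) (n k)) atTop atTop ∧
  Tendsto (fun k => ((m k + n k : ℕ) : ℝ) / (side (N k) (m k) (n k) : ℝ)) atTop (𝓝 p) ∧
  Tendsto (fun k => (x k : ℝ) / (side (N k) (m k) (n k) : ℝ)) atTop (𝓝 h) ∧
  Tendsto (fun k => (m k : ℝ) / (n k : ℝ)) atTop (𝓝 r)

/-- `c` is the growth rate `F(p, h, r)`: parameter sequences exist, and `log T / L ^ 2 → c`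
along every one of them. -/
def IsGrowthRate (p h r c : ℝ) : Prop :=
  (∃ N m n x : ℕ → ℕ, IsParamSeq p h r N m n x) ∧
  ∀ N m n x : ℕ → ℕ, IsParamSeq p h r N m n x →
    Tendsto (fun k => Real.log (numTilings (N k) (m k) (n k) (x k) : ℝ) /
      (side (N k) (m k) (n k) : ℝ) ^ 2) atTop (𝓝 c)

/-- `ψ(t) = t ^ 2 log t / 2`. -/
noncomputable def psi (t : ℝ) : ℝ := t ^ 2 * Real.log t / 2

/-- The contribution of a slit of scaled length `t`. -/
noncomputable def slit (p h t : ℝ) : ℝ :=
  psi (1 - p / 2 + t) - psi (t + h) / 2 - psi (t + 2 - p) / 2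

/-- The part of the growth rate that does not depend on `r`. -/
noncomputable def base (p h : ℝ) : ℝ :=
  psi (3 - p / 2) - 2 * psi 2 + psi (1 - p / 2) + psi h + psi (2 - h) / 2 - psi (2 - p - h) / 2
    + psi (1 - p / 2 - h) + psi (1 + p / 2 + h) - psi (1 - h) - psi (1 + h)

/-- The closed form of the growth rate. -/
noncomputable def rate (p h r : ℝ) : ℝ :=
  base p h + slit p h (p * r / (1 + r)) + slit p h (p / (1 + r))

end Pool.Agent.Lib.MP_0b03d8_co
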