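import Pool.Agent.Lib.MP_0b03d8_co.Trap
import Pool.Agent.Lib.MP_0b03d8_co.Asym

set_option autoImplicit false

open Finset

namespace Pool.Agent.Lib.MP_0b03d8_co

lemma mem_AP1 {a : ℤ} {A : ℕ} {u : ℤ} : u ∈ AP a 1 A ↔ a ≤ u ∧ u < a + A := by
  rw [← Ico_eq_AP a _ A rfl, mem_Ico]

lemma mem_AP2 {a : ℤ} {A : ℕ} {u : ℤ} :
    u ∈ AP a 2 A ↔ a ≤ u ∧ u < a + 2 * A ∧ (u - a) % 2 = 0 := by
  rw [mem_AP]
  exact ⟨by rintro ⟨i, hi, rfl⟩; omega, fun h => ⟨((u - a) / 2).toNat, by omega, by omega⟩⟩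

lemma summand {c : ℝ} (hc : 0 < c) {U W C : Finset ℤ} (hUW : Disjoint U W) (hUC : Disjoint U C)
    (hWC : Disjoint W C) {k k1 k2 k3 : ℕ} (h1 : U.card + k = k1) (h2 : W.card + k = k2)
    (h3 : U.card + W.card + k = k3) :
    ((if (U ∪ C).card = k1 then P (U ∪ C) else 0) * if (W ∪ C).card = k2 then P (W ∪ C) else 0) =
      Del c U * Del c W * Hf c k * Hf c k3 / (Hf c k1 * Hf c k2 * Del c (U ∪ W)) *
        ((if C.card = k then P C else 0) *
          if (U ∪ W ∪ C).card = k3 then P (U ∪ W ∪ C) else 0) := by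
  have hY : Disjoint (U ∪ W) C := disjoint_union_left.2 ⟨hUC, hWC⟩
  have c1 := card_union_of_disjoint hUC
  have c2 := card_union_of_disjoint hWC
  have c3 := card_union_of_disjoint hY
  have c4 := card_union_of_disjoint hUW
  by_cases hk : C.card = k
  · rw [if_pos (by omega), if_pos (by omega), if_pos hk, if_pos (by omega),
      P_scale hc _ (k := k1) (by omega), P_scale hc _ (k := k2) (by omega), P_scale hc _ hk,
      P_scale hc _ (k := k3) (by omega), Del_union _ hUC, Del_union _ hWC, Del_union _ hY,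
      Cr_union_left _ hUW]
    have := Hf_pos hc k
    have := Hf_pos hc k1
    have := Hf_pos hc k2
    have := Hf_pos hc k3
    have := Del_pos hc (U ∪ W)
    field_simp
  · rw [if_neg (by omega), if_neg hk]
    simp

lemma mem_hexagon (L : ℕ) (t : Tri) : t ∈ hexagon L ↔ -(L : ℤ) ≤ t.1 ∧ t.1 < L ∧
    -(L : ℤ) ≤ t.2.1 ∧ t.2.1 < L ∧ -(L : ℤ) ≤ t.1 + t.2.1 + (if t.2.2 = true then 0 else 1) ∧
    t.1 + t.2.1 + (if t.2.2 = true then 1 else 2) ≤ L := by
  obtain ⟨u, v, b⟩ := t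
  cases b <;> simp only [hexagon, verts, Set.mem_ofPred_eq, if_true, if_false, Bool.false_eq_true,
    mem_insert, mem_singleton, forall_eq_or_imp, forall_eq, abs_le] <;> omega

lemma mem_fern (n : ℕ) (f : ℕ → ℤ) (x : ℤ) (t : Tri) :
    (∃ i : ℕ, i < n ∧ t = lobe i (f i) x) ↔
      ((∃ i : ℕ, i < n ∧ i % 2 = 0 ∧ t.1 = f i) ∧ t.2.2 = true ∧ t.2.1 = x) ∨
      ((∃ i : ℕ, i < n ∧ i % 2 = 1 ∧ t.1 = f i) ∧ t.2.2 = false ∧ t.2.1 = x - 1) := by
  obtain ⟨u, v, b⟩ := t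
  constructor
  · rintro ⟨i, hi, h⟩
    unfold lobe at h
    split_ifs at h with he
    · rw [Nat.even_iff] at he
      simp only [Prod.mk.injEq] at h
      exact Or.inl ⟨⟨i, hi, he, h.1⟩, h.2.2, h.2.1⟩
    · rw [Nat.even_iff] at he
      simp only [Prod.mk.injEq] at h
      exact Or.inr ⟨⟨i, hi, by omega, h.1⟩, h.2.2, h.2.1⟩
  · rintro (⟨⟨i, hi, he, h⟩, h1, h2⟩ | ⟨⟨i, hi, he, h⟩, h1, h2⟩) <;> simp only at h h1 h2
    · exact ⟨i, hi, by rw [lobe, if_pos (Nat.even_iff.2 he), h, h1, h2]⟩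
    · exact ⟨i, hi, by rw [lobe, if_neg (by rw [Nat.even_iff]; omega), h, h1, h2]⟩

lemma region_eq (a b x k L : ℕ) (hL : L = x + k + a + b) :
    region (x + k) (2 * a) (2 * b) x = Reg (-L) L (x - (L + x : ℕ)) x (x + (k + a + b : ℕ)) (-L) L
      (AP (-L) 2 a ∪ AP (L - x - 2 * b + 1) 2 b) (AP (-L + 1) 2 a ∪ AP (L - x - 2 * b) 2 b) := by
  have hs : side (x + k) (2 * a) (2 * b) = L := by unfold side; omega
  ext t
  have e1 : (∃ i : ℕ, i < 2 * a ∧ i % 2 = 0 ∧ t.1 = -(L : ℤ) + i) ↔ t.1 ∈ AP (-L) 2 a := by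
    rw [mem_AP2]
    exact ⟨by rintro ⟨i, h1, h2, h3⟩; omega, fun h => ⟨(t.1 + L).toNat, by omega, by omega, by omega⟩⟩
  have e2 : (∃ i : ℕ, i < 2 * a ∧ i % 2 = 1 ∧ t.1 = -(L : ℤ) + i) ↔ t.1 ∈ AP (-L + 1) 2 a := by
    rw [mem_AP2]
    exact ⟨by rintro ⟨i, h1, h2, h3⟩; omega, fun h => ⟨(t.1 + L).toNat, by omega, by omega, by omega⟩⟩
  have e3 : (∃ i : ℕ, i < 2 * b ∧ i % 2 = 0 ∧ t.1 = (L : ℤ) - x - 1 - i) ↔
      t.1 ∈ AP (L - x - 2 * b + 1) 2 b := by
    rw [mem_AP2]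
    exact ⟨by rintro ⟨i, h1, h2, h3⟩; omega,
      fun h => ⟨(L - x - 1 - t.1).toNat, by omega, by omega, by omega⟩⟩
  have e4 : (∃ i : ℕ, i < 2 * b ∧ i % 2 = 1 ∧ t.1 = (L : ℤ) - x - 1 - i) ↔
      t.1 ∈ AP (L - x - 2 * b) 2 b := by
    rw [mem_AP2]
    exact ⟨by rintro ⟨i, h1, h2, h3⟩; omega,
      fun h => ⟨(L - x - 1 - t.1).toNat, by omega, by omega, by omega⟩⟩
  simp only [region, hs, Set.mem_sdiff, Set.mem_union, Set.mem_ofPred_eq, mem_hexagon,
    mem_fern (2 * a) (fun i => -(L : ℤ) + i), mem_fern (2 * b) (fun i => (L : ℤ) - x - 1 - i),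
    e1, e2, e3, e4, Reg, mem_union]
  have f1 : (x : ℤ) - (L + x : ℕ) = -L := by push_cast; ring
  have f2 : (x : ℤ) + (k + a + b : ℕ) = L := by rw [hL]; push_cast; ring
  rw [f1, f2]
  simp only [and_assoc, or_and_right, not_or]
  exact ⟨fun ⟨a1, a2, a3, a4, a5, a6, n1, n2, n3, n4⟩ => ⟨a1, a2, a3, a4, a5, a6, n1, n3, n2, n4⟩,
    fun ⟨a1, a2, a3, a4, a5, a6, n1, n2, n3, n4⟩ => ⟨a1, a2, a3, a4, a5, a6, n1, n3, n2, n4⟩⟩

theorem numTilings_eq {c : ℝ} (hc : 0 < c) (a b x k L : ℕ) (hL : L = x + k + a + b) (h0 : 0 < L) :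
    (numTilings (x + k) (2 * a) (2 * b) x : ℝ) =
      Del c (AP (-L) 2 a ∪ AP (L - x - 2 * b + 1) 2 b) *
      Del c (AP (-L - x) 1 x ∪ AP (-L + 1) 2 a ∪ AP (L - x - 2 * b) 2 b ∪ AP (L - x) 1 x) *
      Hf c k * Hf c (k + 2 * a + 2 * b + 2 * x) /
      (Hf c (k + a + b) * Hf c (L + x) *
        Del c (AP (-L - x) 1 (2 * a + x) ∪ AP (L - x - 2 * b) 1 (2 * b + x))) *
      (Del c (AP (-L - x - k) 1 (x + k + 2 * a) ∪ AP (L - 2 * b - x - k) 1 (x + k + 2 * b)) /
        Hf c (2 * L)) := by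
  have hL' : (L : ℤ) = x + k + a + b := by exact_mod_cast hL
  set U := AP (-L) 2 a ∪ AP (L - x - 2 * b + 1) 2 b with hU
  set D := AP (-L + 1) 2 a ∪ AP (L - x - 2 * b) 2 b with hD
  set W := AP (-L - x) 1 x ∪ AP (-L + 1) 2 a ∪ AP (L - x - 2 * b) 2 b ∪ AP (L - x) 1 x with hW
  set G := Ico (-(L : ℤ) + 2 * a) (L - 2 * b - x) with hG
  have hY : AP (-L - x) 1 (2 * a + x) ∪ AP (L - x - 2 * b) 1 (2 * b + x) = U ∪ W := by
    ext u
    simp only [hU, hW, mem_union, mem_AP1, mem_AP2]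
    push_cast
    omega
  have cU : U.card = a + b := by
    rw [hU, card_union_of_disjoint, card_AP _ (by norm_num), card_AP _ (by norm_num)]
    rw [Finset.disjoint_left]
    simp only [mem_AP2]
    omega
  have cW : W.card = x + a + b + x := by
    rw [hW, card_union_of_disjoint, card_union_of_disjoint, card_union_of_disjoint,
      card_AP _ (by norm_num), card_AP _ (by norm_num), card_AP _ (by norm_num),
      card_AP _ (by norm_num)]
    all_goals
      rw [Finset.disjoint_left]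
      simp only [mem_union, mem_AP1, mem_AP2]
      omega
  have hUW : Disjoint U W := by
    rw [Finset.disjoint_left]
    simp only [hU, hW, mem_union, mem_AP1, mem_AP2]
    omega
  have m1 := M_reg (-L) L x (-L) L (L + x) (k + a + b) U D G (by push_cast; omega)
    (by push_cast; omega) (by omega) (by omega) (by push_cast; omega) (by push_cast; omega)
    (by simp only [hU, mem_union, mem_AP2]; omega) (by simp only [hD, mem_union, mem_AP2]; omega)
    (by omega) (fun h => by rw [← card_eq_zero, cU]; omega)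
    (by simp only [hU, hD, hG, mem_union, mem_AP2, mem_Ico]; omega)
  have m2 := M_reg (-L + 2 * a) L x (-L) (L - 2 * b) (k + 2 * a + 2 * b + 2 * x) k ∅ ∅ G
    (by push_cast; omega) (by push_cast; omega) (by omega) (by omega) (by push_cast; omega)
    (by omega) (by simp) (by simp) (by omega) (fun _ => rfl) (by simp [hG])
  have m3 := M_low (-L + 2 * a) L (x + k) (-L) (L - 2 * b) (2 * L) ∅ (by push_cast; omega)
    (by push_cast; omega) (by omega) (by omega) (by omega) (by push_cast; omega) (by simp)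
    (fun _ => rfl)
  have e23 : Reg (-L + 2 * a) L (x - (k + 2 * a + 2 * b + 2 * x : ℕ)) x (x + k) (-L) (L - 2 * b) ∅ ∅ =
      Low (-L + 2 * a) L (x + k - (2 * L : ℕ)) (x + k) (-L) (L - 2 * b) ∅ := by
    have : (x : ℤ) - (k + 2 * a + 2 * b + 2 * x : ℕ) = x + k - (2 * L : ℕ) := by push_cast; omega
    rw [this]
    ext t
    simp [Reg, Low]
  have eZ : Ico (-(L : ℤ) - (x + k)) (-L + 2 * a) ∪ ∅ ∪ Ico (L - 2 * b - (x + k) : ℤ) L =
      AP (-L - x - k) 1 (x + k + 2 * a) ∪ AP (L - 2 * b - x - k) 1 (x + k + 2 * b) := by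
    ext u
    simp only [mem_union, mem_AP1, mem_Ico, notMem_empty, or_false]
    push_cast
    omega
  have cZ : (AP (-L - x - k) 1 (x + k + 2 * a) ∪ AP (L - 2 * b - x - k) 1 (x + k + 2 * b)).card =
      2 * L := by
    rw [card_union_of_disjoint, card_AP _ le_rfl, card_AP _ le_rfl]
    · omega
    · rw [Finset.disjoint_left]
      simp only [mem_AP1]
      push_cast
      omega
  rw [eZ, if_pos cZ, P_scale hc _ cZ, ← e23, m2] at m3
  rw [numTilings, region_eq a b x k L hL, ← M, m1, ← m3, mul_sum, hY]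
  refine sum_congr rfl fun C hC => ?_
  rw [mem_powerset] at hC
  have hC' : ∀ u ∈ C, -(L : ℤ) + 2 * a ≤ u ∧ u < L - 2 * b - x := fun u hu => mem_Ico.1 (hC hu)
  have e1 : Ico (-(L : ℤ) - x) (-L) ∪ (D ∪ C) ∪ Ico (L - x : ℤ) L = W ∪ C := by
    ext u
    simp only [hD, hW, mem_union, mem_AP1, mem_Ico]
    by_cases h : u ∈ C <;> by_cases h1 : u ∈ AP (-L + 1) 2 a <;>
      by_cases h2 : u ∈ AP (L - x - 2 * b) 2 b <;> simp [h, h1, h2]
  have e2 : Ico (-(L : ℤ) - x) (-L + 2 * a) ∪ (∅ ∪ C) ∪ Ico (L - 2 * b - x : ℤ) L = U ∪ W ∪ C := by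
    rw [← hY]
    ext u
    simp only [mem_union, mem_AP1, mem_Ico, notMem_empty]
    push_cast
    by_cases h : u ∈ C <;> simp [h]
    omega
  rw [e1, e2, empty_union]
  refine summand hc hUW ?_ ?_ (by omega) (by omega) (by omega)
  · rw [Finset.disjoint_right]
    intro u hu
    have := hC' u hu
    simp only [hU, mem_union, mem_AP2]
    omega
  · rw [Finset.disjoint_right]
    intro u hu
    have := hC' u hu
    simp only [hW, mem_union, mem_AP1, mem_AP2]
    omega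

theorem log_numTilings {c : ℝ} (hc : 0 < c) (a b x k L : ℕ) (hL : L = x + k + a + b) (h0 : 0 < L) :
    Real.log (numTilings (x + k) (2 * a) (2 * b) x : ℝ) =
      Real.log (Del c (AP (-L) 2 a)) + Real.log (Del c (AP (L - x - 2 * b + 1) 2 b)) +
      Real.log (Cr c (AP (-L) 2 a) (AP (L - x - 2 * b + 1) 2 b)) +
      Real.log (Del c (AP (-L - x) 1 x)) + Real.log (Del c (AP (-L + 1) 2 a)) +
      Real.log (Del c (AP (L - x - 2 * b) 2 b)) + Real.log (Del c (AP (L - x) 1 x)) +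
      Real.log (Cr c (AP (-L - x) 1 x) (AP (-L + 1) 2 a)) +
      Real.log (Cr c (AP (-L - x) 1 x) (AP (L - x - 2 * b) 2 b)) +
      Real.log (Cr c (AP (-L + 1) 2 a) (AP (L - x - 2 * b) 2 b)) +
      Real.log (Cr c (AP (-L - x) 1 x) (AP (L - x) 1 x)) +
      Real.log (Cr c (AP (-L + 1) 2 a) (AP (L - x) 1 x)) +
      Real.log (Cr c (AP (L - x - 2 * b) 2 b) (AP (L - x) 1 x)) +
      Real.log (Hf c k) + Real.log (Hf c (k + 2 * a + 2 * b + 2 * x)) -
      Real.log (Hf c (k + a + b)) - Real.log (Hf c (L + x)) -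
      Real.log (Del c (AP (-L - x) 1 (2 * a + x))) -
      Real.log (Del c (AP (L - x - 2 * b) 1 (2 * b + x))) -
      Real.log (Cr c (AP (-L - x) 1 (2 * a + x)) (AP (L - x - 2 * b) 1 (2 * b + x))) +
      Real.log (Del c (AP (-L - x - k) 1 (x + k + 2 * a))) +
      Real.log (Del c (AP (L - 2 * b - x - k) 1 (x + k + 2 * b))) +
      Real.log (Cr c (AP (-L - x - k) 1 (x + k + 2 * a)) (AP (L - 2 * b - x - k) 1 (x + k + 2 * b))) -
      Real.log (Hf c (2 * L)) := by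
  have hL' : (L : ℤ) = x + k + a + b := by exact_mod_cast hL
  have d1 : Disjoint (AP (-L) 2 a) (AP (L - x - 2 * b + 1) 2 b) := by
    rw [Finset.disjoint_left]; simp only [mem_AP2]; omega
  have d2 : Disjoint (AP (-L - x) 1 x) (AP (-L + 1) 2 a) := by
    rw [Finset.disjoint_left]; simp only [mem_AP1, mem_AP2]; omega
  have d3 : Disjoint (AP (-L - x) 1 x) (AP (L - x - 2 * b) 2 b) := by
    rw [Finset.disjoint_left]; simp only [mem_AP1, mem_AP2]; omega
  have d4 : Disjoint (AP (-L + 1) 2 a) (AP (L - x - 2 * b) 2 b) := by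
    rw [Finset.disjoint_left]; simp only [mem_AP2]; omega
  have d5 : Disjoint (AP (-L - x) 1 x) (AP (L - x) 1 x) := by
    rw [Finset.disjoint_left]; simp only [mem_AP1]; omega
  have d6 : Disjoint (AP (-L + 1) 2 a) (AP (L - x) 1 x) := by
    rw [Finset.disjoint_left]; simp only [mem_AP1, mem_AP2]; omega
  have d7 : Disjoint (AP (L - x - 2 * b) 2 b) (AP (L - x) 1 x) := by
    rw [Finset.disjoint_left]; simp only [mem_AP1, mem_AP2]; omega
  have d8 : Disjoint (AP (-L - x) 1 (2 * a + x)) (AP (L - x - 2 * b) 1 (2 * b + x)) := by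
    rw [Finset.disjoint_left]; simp only [mem_AP1]; push_cast; omega
  have d9 : Disjoint (AP (-L - x - k) 1 (x + k + 2 * a)) (AP (L - 2 * b - x - k) 1 (x + k + 2 * b)) := by
    rw [Finset.disjoint_left]; simp only [mem_AP1]; push_cast; omega
  have d34 := disjoint_union_left.2 ⟨d3, d4⟩
  have d56 := disjoint_union_left.2 ⟨d5, d6⟩
  rw [numTilings_eq hc a b x k L hL h0, Del_union _ d1, Del_union _ d8, Del_union _ d9,
    Del_union _ (disjoint_union_left.2 ⟨d56, d7⟩), Del_union _ d34, Del_union _ d2,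
    Cr_union_left _ d34, Cr_union_left _ d2, Cr_union_left _ d2]
  have p1 := (Cr_pos hc d1).ne'
  have p2 := (Cr_pos hc d2).ne'
  have p3 := (Cr_pos hc d3).ne'
  have p4 := (Cr_pos hc d4).ne'
  have p5 := (Cr_pos hc d5).ne'
  have p6 := (Cr_pos hc d6).ne'
  have p7 := (Cr_pos hc d7).ne'
  have p8 := (Cr_pos hc d8).ne'
  have p9 := (Cr_pos hc d9).ne'
  have q := fun S => (Del_pos hc S).ne'
  have r := fun k => (Hf_pos hc k).ne'
  simp only [ne_eq, mul_eq_zero, div_eq_zero_iff, p1, p2, p3, p4, p5, p6, p7, p8, p9, q, r, or_self,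
    not_false_eq_true, Real.log_mul, Real.log_div]
  ring

end Pool.Agent.Lib.MP_0b03d8_co
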