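import Pool.Agent.Lib.MP_0b03d8_co.Formula

set_option autoImplicit false

open Finset Filter Topology

namespace Pool.Agent.Lib.MP_0b03d8_co

lemma K_eq (t : ℝ) : K t = psi t - 3 * t ^ 2 / 4 := rfl

lemma psi_zero : psi 0 = 0 := by simp [psi]

theorem core_limit {a b x κ L : ℕ → ℕ} {α β h : ℝ} (hL : ∀ k, L k = x k + κ k + a k + b k)
    (hLt : Tendsto L atTop atTop) (hα : Tendsto (fun k => (a k : ℝ) / L k) atTop (𝓝 α))
    (hβ : Tendsto (fun k => (b k : ℝ) / L k) atTop (𝓝 β))
    (hh : Tendsto (fun k => (x k : ℝ) / L k) atTop (𝓝 h)) :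
    Tendsto (fun k => Real.log (numTilings (x k + κ k) (2 * a k) (2 * b k) (x k) : ℝ) / (L k : ℝ) ^ 2)
      atTop (𝓝 (base (2 * α + 2 * β) h + slit (2 * α + 2 * β) h (2 * α) +
        slit (2 * α + 2 * β) h (2 * β))) := by
  have hc : Tendsto (fun k => (L k : ℝ)) atTop atTop := tendsto_natCast_atTop_atTop.comp hLt
  have hL' : ∀ k, (L k : ℤ) = x k + κ k + a k + b k := fun k => by exact_mod_cast hL k
  have hκ : Tendsto (fun k => (κ k : ℝ) / L k) atTop (𝓝 (1 - h - α - β)) := by
    refine (((tendsto_const_nhds.sub hh).sub hα).sub hβ).congr' ?_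
    filter_upwards [hc.eventually_gt_atTop 0] with k hk
    have : (L k : ℝ) = x k + κ k + a k + b k := by exact_mod_cast hL k
    field_simp
    linarith
  have lin : ∀ (c0 c1 c2 c3 c4 : ℝ) (f : ℕ → ℝ) (l : ℝ),
      (∀ k, f k = c0 + c1 * a k + c2 * b k + c3 * x k + c4 * κ k) →
      l = c1 * α + c2 * β + c3 * h + c4 * (1 - h - α - β) →
      Tendsto (fun k => f k / L k) atTop (𝓝 l) := by
    intro c0 c1 c2 c3 c4 f l hf hl
    have := ((((hc.inv_tendsto_atTop.const_mul c0).add (hα.const_mul c1)).add (hβ.const_mul c2)).add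
      (hh.const_mul c3)).add (hκ.const_mul c4)
    rw [mul_zero, zero_add, ← hl] at this
    exact this.congr fun k => by rw [hf k]; simp only [Pi.inv_apply]; ring
  have two : (1 : ℕ) ≤ 2 := by norm_num
  have s1 := Del_AP_tendsto hc (fun k => -(L k : ℤ)) two hα
  have s2 := Del_AP_tendsto hc (fun k => (L k : ℤ) - x k - 2 * b k + 1) two hβ
  have s3 := Cr_AP_tendsto hc (fun k => -(L k : ℤ)) (fun k => (L k : ℤ) - x k - 2 * b k + 1)
    (fun k => (x k : ℤ) + 2 * κ k + 3) two two (fun k => by omega)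
    (fun k => by have := hL' k; push_cast; omega)
    (lin 3 0 0 1 2 _ (2 - h - 2 * α - 2 * β) (fun k => by push_cast; ring) (by ring)) hα hβ
  have s4 := Del_AP_tendsto hc (fun k => -(L k : ℤ) - x k) le_rfl hh
  have s5 := Del_AP_tendsto hc (fun k => -(L k : ℤ) + 1) two hα
  have s6 := Del_AP_tendsto hc (fun k => (L k : ℤ) - x k - 2 * b k) two hβ
  have s7 := Del_AP_tendsto hc (fun k => (L k : ℤ) - x k) le_rfl hh
  have s8 := Cr_AP_tendsto hc (fun k => -(L k : ℤ) - x k) (fun k => -(L k : ℤ) + 1)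
    (fun _ => 2) le_rfl two (fun k => by omega) (fun k => by push_cast; omega)
    (lin 2 0 0 0 0 _ 0 (fun k => by push_cast; ring) (by ring)) hh hα
  have s9 := Cr_AP_tendsto hc (fun k => -(L k : ℤ) - x k) (fun k => (L k : ℤ) - x k - 2 * b k)
    (fun k => (x k : ℤ) + 2 * κ k + 2 * a k + 1) le_rfl two (fun k => by omega)
    (fun k => by have := hL' k; push_cast; omega)
    (lin 1 2 0 1 2 _ (2 - h - 2 * β) (fun k => by push_cast; ring) (by ring)) hh hβ
  have s10 := Cr_AP_tendsto hc (fun k => -(L k : ℤ) + 1) (fun k => (L k : ℤ) - x k - 2 * b k)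
    (fun k => (x k : ℤ) + 2 * κ k + 1) two two (fun k => by omega)
    (fun k => by have := hL' k; push_cast; omega)
    (lin 1 0 0 1 2 _ (2 - h - 2 * α - 2 * β) (fun k => by push_cast; ring) (by ring)) hα hβ
  have s11 := Cr_AP_tendsto hc (fun k => -(L k : ℤ) - x k) (fun k => (L k : ℤ) - x k)
    (fun k => (x k : ℤ) + 2 * κ k + 2 * a k + 2 * b k + 1) le_rfl le_rfl (fun k => by omega)
    (fun k => by have := hL' k; push_cast; omega)
    (lin 1 2 2 1 2 _ (2 - h) (fun k => by push_cast; ring) (by ring)) hh hh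
  have s12 := Cr_AP_tendsto hc (fun k => -(L k : ℤ) + 1) (fun k => (L k : ℤ) - x k)
    (fun k => (x k : ℤ) + 2 * κ k + 2 * b k + 1) two le_rfl (fun k => by omega)
    (fun k => by have := hL' k; push_cast; omega)
    (lin 1 0 2 1 2 _ (2 - h - 2 * α) (fun k => by push_cast; ring) (by ring)) hα hh
  have s13 := Cr_AP_tendsto hc (fun k => (L k : ℤ) - x k - 2 * b k) (fun k => (L k : ℤ) - x k)
    (fun _ => 2) two le_rfl (fun k => by omega) (fun k => by push_cast; omega)
    (lin 2 0 0 0 0 _ 0 (fun k => by push_cast; ring) (by ring)) hβ hh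
  have s14 := Hf_tendsto hc hκ
  have s15 := Hf_tendsto (A := fun k => κ k + 2 * a k + 2 * b k + 2 * x k) hc
    (lin 0 2 2 2 1 _ (1 + h + α + β) (fun k => by push_cast; ring) (by ring))
  have s16 := Hf_tendsto (A := fun k => κ k + a k + b k) hc
    (lin 0 1 1 0 1 _ (1 - h) (fun k => by push_cast; ring) (by ring))
  have s17 := Hf_tendsto (A := fun k => L k + x k) hc
    (lin 0 1 1 2 1 _ (1 + h) (fun k => by rw [hL k]; push_cast; ring) (by ring))
  have l1 := lin 0 2 0 1 0 (fun k => ((2 * a k + x k : ℕ) : ℝ)) (2 * α + h)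
    (fun k => by push_cast; ring) (by ring)
  have l2 := lin 0 0 2 1 0 (fun k => ((2 * b k + x k : ℕ) : ℝ)) (2 * β + h)
    (fun k => by push_cast; ring) (by ring)
  have s18 := Del_AP_tendsto hc (fun k => -(L k : ℤ) - x k) le_rfl l1
  have s19 := Del_AP_tendsto hc (fun k => (L k : ℤ) - x k - 2 * b k) le_rfl l2
  have s20 := Cr_AP_tendsto hc (fun k => -(L k : ℤ) - x k) (fun k => (L k : ℤ) - x k - 2 * b k)
    (fun k => (x k : ℤ) + 2 * κ k + 1) le_rfl le_rfl (fun k => by omega)
    (fun k => by have := hL' k; push_cast; omega)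
    (lin 1 0 0 1 2 _ (2 - h - 2 * α - 2 * β) (fun k => by push_cast; ring) (by ring)) l1 l2
  have l3 := lin 0 2 0 1 1 (fun k => ((x k + κ k + 2 * a k : ℕ) : ℝ)) (1 + α - β)
    (fun k => by push_cast; ring) (by ring)
  have l4 := lin 0 0 2 1 1 (fun k => ((x k + κ k + 2 * b k : ℕ) : ℝ)) (1 - α + β)
    (fun k => by push_cast; ring) (by ring)
  have s21 := Del_AP_tendsto hc (fun k => -(L k : ℤ) - x k - κ k) le_rfl l3
  have s22 := Del_AP_tendsto hc (fun k => (L k : ℤ) - 2 * b k - x k - κ k) le_rfl l4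
  have s23 := Cr_AP_tendsto hc (fun k => -(L k : ℤ) - x k - κ k)
    (fun k => (L k : ℤ) - 2 * b k - x k - κ k)
    (fun k => (x k : ℤ) + κ k + 1) le_rfl le_rfl (fun k => by omega)
    (fun k => by have := hL' k; push_cast; omega)
    (lin 1 0 0 1 1 _ (1 - α - β) (fun k => by push_cast; ring) (by ring)) l3 l4
  have s24 := Hf_tendsto (A := fun k => 2 * L k) hc
    (lin 0 2 2 2 2 _ 2 (fun k => by rw [hL k]; push_cast; ring) (by ring))
  have tot := ((((((((((((((((((((((s1.add s2).add s3).add s4).add s5).add s6).add s7).add s8).add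
    s9).add s10).add s11).add s12).add s13).add s14).add s15).sub s16).sub s17).sub s18).sub
    s19).sub s20).add s21).add s22).add s23).sub s24
  refine Tendsto.congr' ?_ (tot.trans (le_of_eq (congrArg 𝓝 ?_)))
  · filter_upwards [hc.eventually_gt_atTop 0] with k hk
    rw [log_numTilings hk (a k) (b k) (x k) (κ k) (L k) (hL k) (by exact_mod_cast hk)]
    ring
  · simp only [K_eq, base, slit, psi_zero]
    push_cast
    ring_nf

theorem rate_limit {p h r : ℝ} (hr : 0 < r) {N m n x : ℕ → ℕ} (H : IsParamSeq p h r N m n x) :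
    Tendsto (fun k => Real.log (numTilings (N k) (m k) (n k) (x k) : ℝ) /
      (side (N k) (m k) (n k) : ℝ) ^ 2) atTop (𝓝 (rate p h r)) := by
  obtain ⟨h1, h2, h3, h4, h5⟩ := H
  have em : ∀ k, m k = 2 * (m k / 2) := fun k => by have := Nat.even_iff.1 (h1 k).1; omega
  have en : ∀ k, n k = 2 * (n k / 2) := fun k => by have := Nat.even_iff.1 (h1 k).2.1; omega
  have eN : ∀ k, N k = x k + (N k - x k) := fun k => by have := (h1 k).2.2; omega
  have hn : Tendsto (fun k => (n k : ℝ) / side (N k) (m k) (n k)) atTop (𝓝 (p / (1 + r))) := by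
    refine (h3.div (tendsto_const_nhds.add h5) (by linarith)).congr' ?_
    filter_upwards [h5.eventually_const_lt hr] with k hk
    have : (n k : ℝ) ≠ 0 := by
      intro e
      simp [e] at hk
    have : (m k : ℝ) + n k ≠ 0 := by positivity
    simp only [Pi.div_apply]
    push_cast
    rw [show 1 + (m k : ℝ) / n k = (m k + n k) / n k by field_simp; ring]
    field_simp
  have hm : Tendsto (fun k => (m k : ℝ) / side (N k) (m k) (n k)) atTop (𝓝 (p * r / (1 + r))) := by
    have := h3.sub hn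
    rw [show p - p / (1 + r) = p * r / (1 + r) by field_simp; ring] at this
    exact this.congr fun k => by push_cast; ring
  have := core_limit (a := fun k => m k / 2) (b := fun k => n k / 2) (x := x)
    (κ := fun k => N k - x k) (L := fun k => side (N k) (m k) (n k))
    (α := p * r / (1 + r) / 2) (β := p / (1 + r) / 2)
    (fun k => by have := em k; have := en k; have := eN k; unfold side; omega) h2
    ((hm.div_const 2).congr fun k => by
      have : (m k : ℝ) = 2 * (m k / 2 : ℕ) := by exact_mod_cast em k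
      rw [this]; ring)
    ((hn.div_const 2).congr fun k => by
      have : (n k : ℝ) = 2 * (n k / 2 : ℕ) := by exact_mod_cast en k
      rw [this]; ring) h4
  rw [show 2 * (p * r / (1 + r) / 2) + 2 * (p / (1 + r) / 2) = p by field_simp; ring,
    show 2 * (p * r / (1 + r) / 2) = p * r / (1 + r) by ring,
    show 2 * (p / (1 + r) / 2) = p / (1 + r) by ring] at this
  refine this.congr fun k => ?_
  simp only [← em k, ← en k, ← eN k]

lemma floor_div_tendsto {t : ℝ} (ht : 0 ≤ t) :
    Tendsto (fun k : ℕ => (⌊t * k⌋₊ : ℝ) / k) atTop (𝓝 t) :=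
  (tendsto_nat_floor_mul_div_atTop ht).comp tendsto_natCast_atTop_atTop

theorem exists_paramSeq {p h r : ℝ} (hp : 0 < p) (hh : 0 < h) (hhp : h ≤ 1 - p / 2)
    (hr : 0 < r) : ∃ N m n x : ℕ → ℕ, IsParamSeq p h r N m n x := by
  set α := p * r / (1 + r) / 2 with hα
  set β := p / (1 + r) / 2 with hβ
  have hα0 : 0 < α := by positivity
  have hβ0 : 0 < β := by positivity
  have hαβ : α + β = p / 2 := by rw [hα, hβ]; field_simp; ring
  have hsum : ∀ k : ℕ, ⌊α * k⌋₊ + ⌊β * k⌋₊ + ⌊h * k⌋₊ ≤ k := by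
    intro k
    have k0 : (0 : ℝ) ≤ k := by positivity
    have a1 := Nat.floor_le (mul_nonneg hα0.le k0)
    have a2 := Nat.floor_le (mul_nonneg hβ0.le k0)
    have a3 := Nat.floor_le (mul_nonneg hh.le k0)
    have : (⌊α * k⌋₊ + ⌊β * k⌋₊ + ⌊h * k⌋₊ : ℝ) ≤ k := by nlinarith
    exact_mod_cast this
  have hs : ∀ k : ℕ, side (k - ⌊α * k⌋₊ - ⌊β * k⌋₊) (2 * ⌊α * k⌋₊) (2 * ⌊β * k⌋₊) = k := by
    intro k
    have := hsum k
    unfold side
    omega
  refine ⟨fun k => k - ⌊α * k⌋₊ - ⌊β * k⌋₊, fun k => 2 * ⌊α * k⌋₊, fun k => 2 * ⌊β * k⌋₊,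
    fun k => ⌊h * k⌋₊, fun k => ⟨even_two_mul _, even_two_mul _, by have := hsum k; beta_reduce; omega⟩, ?_, ?_,
    ?_, ?_⟩
  · simp only [hs]
    exact tendsto_id
  · simp only [hs]
    have := ((floor_div_tendsto hα0.le).add (floor_div_tendsto hβ0.le)).const_mul 2
    rw [show 2 * (α + β) = p by rw [hαβ]; ring] at this
    exact this.congr fun k => by push_cast; ring
  · simp only [hs]
    exact floor_div_tendsto hh.le
  · have := (floor_div_tendsto hα0.le).div (floor_div_tendsto hβ0.le) hβ0.ne'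
    rw [show α / β = r by rw [hα, hβ]; field_simp] at this
    refine this.congr' ?_
    filter_upwards [eventually_gt_atTop 0] with k hk
    have : (k : ℝ) ≠ 0 := by positivity
    simp only [Pi.div_apply]
    push_cast
    rw [div_div_div_cancel_right₀ this, mul_div_mul_left _ _ two_ne_zero]

end Pool.Agent.Lib.MP_0b03d8_co
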