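import Pool.Agent.Lib.MP_0b03d8_co.Tile

set_option autoImplicit false

open Set

namespace Pool.Agent.Lib.MP_0b03d8_co

lemma M_force_one {R : Set Tri} {t s : Tri} (ht : t ∈ R) (hs : s ∈ R) (hts : Adj t s)
    (hu : ∀ s' ∈ R, Adj t s' → s' = s) : M R = M (R \ {t, s}) := by
  have h0 : ({{t, s}} : Set (Set Tri)) ∈ Tilings {t, s} := by
    refine ⟨?_, ?_⟩
    · rintro l rfl
      exact ⟨⟨t, s, hts, rfl⟩, subset_rfl⟩
    · intro a ha
      exact ⟨{t, s}, ⟨rfl, ha⟩, fun l hl => hl.1⟩
  have := ncard_remove (R := R) (by rintro _ (rfl | rfl) <;> assumption) h0 (fun _ => True)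
  simp only [and_true, ofPred_mem_eq] at this
  rw [M, M, ← this]
  congr 1
  ext S
  refine ⟨fun hS => ⟨hS, ?_⟩, fun hS => hS.1⟩
  rintro l rfl
  obtain ⟨l, ⟨hl, htl⟩, -⟩ := hS.2 _ ht
  obtain ⟨s', hs', rfl⟩ := (hS.1 l hl).1.exists_of_mem htl
  rw [← hu s' ((hS.1 _ hl).2 (by simp)) hs']
  exact hl

lemma M_zero {R : Set Tri} {t : Tri} (ht : t ∈ R) (hu : ∀ s ∈ R, ¬ Adj t s) : M R = 0 := by
  have : Tilings R = ∅ := by
    rw [eq_empty_iff_forall_notMem]
    intro S hS
    obtain ⟨l, ⟨hl, htl⟩, -⟩ := hS.2 _ ht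
    obtain ⟨s', hs', rfl⟩ := (hS.1 l hl).1.exists_of_mem htl
    exact hu s' ((hS.1 _ hl).2 (by simp)) hs'
  simp [M, this]

/-- Position of a triangle within its row. -/
def idx (t : Tri) : ℤ := 2 * t.1 + if t.2.2 = true then 0 else 1

def rowSet (v : ℤ) (Z : Finset ℤ) : Set Tri := {t | t.2.1 = v ∧ idx t ∈ Z}

/-- Number of elements below `w`. -/
def cnt (Z : Finset ℤ) (w : ℤ) : ℕ := (Z.filter (· < w)).card

lemma cnt_succ (Z : Finset ℤ) (w : ℤ) : cnt Z (w + 1) = cnt Z w + if w ∈ Z then 1 else 0 := by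
  unfold cnt
  split_ifs with h
  · rw [← Finset.card_insert_of_notMem (a := w) (by simp)]
    congr 1
    ext a
    simp only [Finset.mem_filter, Finset.mem_insert]
    constructor
    · rintro ⟨h1, h2⟩
      by_cases e : a = w
      · exact Or.inl e
      · exact Or.inr ⟨h1, by omega⟩
    · rintro (rfl | ⟨h1, h2⟩)
      · exact ⟨h, by omega⟩
      · exact ⟨h1, by omega⟩
  · rw [add_zero]
    congr 1
    ext a
    simp only [Finset.mem_filter]
    refine and_congr_right fun ha => ⟨fun h2 => ?_, fun h2 => by omega⟩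
    have : a ≠ w := fun e => h (e ▸ ha)
    omega

lemma cnt_eq_zero {Z : Finset ℤ} {w : ℤ} (h : ∀ z ∈ Z, w ≤ z) : cnt Z w = 0 := by
  unfold cnt
  rw [Finset.card_eq_zero, Finset.filter_eq_empty_iff]
  intro z hz
  exact not_lt.2 (h z hz)

lemma cnt_eq_card {Z : Finset ℤ} {w : ℤ} (h : ∀ z ∈ Z, z < w) : cnt Z w = Z.card := by
  unfold cnt
  rw [Finset.filter_true_of_mem h]

lemma adj_row {s t : Tri} (h : s.2.1 = t.2.1) :
    Adj s t ↔ idx t = idx s + 1 ∨ idx t + 1 = idx s := by
  obtain ⟨u, v, b⟩ := s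
  obtain ⟨u', v', b'⟩ := t
  rw [adj_iff]
  simp only at h
  cases b <;> cases b' <;> simp [idx] <;> omega

lemma idx_inj {s t : Tri} (h : s.2.1 = t.2.1) (h' : idx s = idx t) : s = t := by
  obtain ⟨u, v, b⟩ := s
  obtain ⟨u', v', b'⟩ := t
  simp only at h
  cases b <;> cases b' <;> simp [idx] at h' ⊢ <;> omega

lemma exists_idx (v z : ℤ) : ∃ t : Tri, t.2.1 = v ∧ idx t = z := by
  rcases Int.emod_two_eq_zero_or_one z with h | h
  · exact ⟨(z / 2, v, true), rfl, by simp [idx]; omega⟩
  · exact ⟨(z / 2, v, false), rfl, by simp [idx]; omega⟩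

open Classical in
lemma M_row (v : ℤ) (Z : Finset ℤ) :
    M (rowSet v Z) = if ∀ w, w ∉ Z → Even (cnt Z w) then 1 else 0 := by
  induction' hn : Z.card using Nat.strong_induction_on with n ih generalizing Z
  rcases Z.eq_empty_or_nonempty with rfl | hZ
  · have : rowSet v ∅ = ∅ := by ext t; simp [rowSet]
    rw [this, M_empty, if_pos]
    intro w _
    simp [cnt]
  set z := Z.min' hZ with hz
  have hzZ : z ∈ Z := Z.min'_mem hZ
  have hmin : ∀ a ∈ Z, z ≤ a := fun a ha => Z.min'_le a ha
  obtain ⟨t, htv, hti⟩ := exists_idx v z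
  have ht : t ∈ rowSet v Z := ⟨htv, hti ▸ hzZ⟩
  by_cases h1 : z + 1 ∈ Z
  · obtain ⟨s, hsv, hsi⟩ := exists_idx v (z + 1)
    have hs : s ∈ rowSet v Z := ⟨hsv, hsi ▸ h1⟩
    rw [M_force_one ht hs ((adj_row (htv.trans hsv.symm)).2 (Or.inl (by omega)))
      (fun s' hs' h => idx_inj (hs'.1.trans hsv.symm) (by
        have := hmin _ hs'.2
        rw [adj_row (htv.trans hs'.1.symm)] at h
        omega))]
    set Z' := (Z.erase z).erase (z + 1) with hZ'
    have hmem : ∀ a, a ∈ Z' ↔ a ∈ Z ∧ a ≠ z ∧ a ≠ z + 1 := by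
      intro a; simp only [hZ', Finset.mem_erase]; tauto
    have e : rowSet v Z \ {t, s} = rowSet v Z' := by
      ext a
      simp only [rowSet, mem_sdiff, mem_ofPred_eq, mem_insert_iff, mem_singleton_iff, hmem]
      constructor
      · rintro ⟨⟨h2, h3⟩, h4⟩
        refine ⟨h2, h3, fun e => h4 (Or.inl ?_), fun e => h4 (Or.inr ?_)⟩
        · exact idx_inj (h2.trans htv.symm) (e.trans hti.symm)
        · exact idx_inj (h2.trans hsv.symm) (e.trans hsi.symm)
      · rintro ⟨h2, h3, h4, h5⟩
        refine ⟨⟨h2, h3⟩, ?_⟩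
        rintro (rfl | rfl)
        · exact h4 hti
        · exact h5 hsi
    have hlt : Z'.card < n := by
      rw [← hn]
      exact (Finset.card_erase_le).trans_lt (Finset.card_erase_lt_of_mem hzZ)
    rw [e, ih _ hlt Z' rfl]
    have hc : ∀ w, z + 2 ≤ w → cnt Z w = cnt Z' w + 2 := by
      intro w hw
      induction w, hw using Int.leInduction with
      | base =>
        rw [show z + 2 = z + 1 + 1 by ring, cnt_succ, cnt_succ, if_pos h1, if_pos hzZ,
          cnt_eq_zero hmin, cnt_eq_zero]
        intro a ha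
        have := (hmem a).1 ha
        have := hmin a this.1
        omega
      | succ w hw ihw =>
        rw [cnt_succ, cnt_succ, ihw]
        have : w ∈ Z' ↔ w ∈ Z := by rw [hmem]; exact ⟨fun h => h.1, fun h => ⟨h, by omega, by omega⟩⟩
        simp only [this]
        omega
    have hc0 : ∀ w, w ≤ z + 2 → cnt Z' w = 0 := by
      intro w hw
      refine cnt_eq_zero fun a ha => ?_
      have := (hmem a).1 ha
      have := hmin a this.1
      omega
    refine if_congr ⟨fun h w hw => ?_, fun h w hw => ?_⟩ rfl rfl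
    · by_cases h2 : z + 2 ≤ w
      · rw [hc w h2]
        exact (h w fun h' => hw ((hmem w).1 h').1).add even_two
      · have : w ≠ z + 1 := fun e => hw (e ▸ h1)
        rw [cnt_eq_zero fun a ha => by have := hmin a ha; omega]
        exact Even.zero
    · by_cases h2 : z + 2 ≤ w
      · have := h w fun h' => hw ((hmem w).2 ⟨h', by omega, by omega⟩)
        rw [hc w h2] at this
        exact (Nat.even_add.1 this).2 even_two
      · rw [hc0 w (by omega)]
        exact Even.zero
  · rw [M_zero ht, if_neg]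
    · intro h
      have := h (z + 1) h1
      rw [cnt_succ, if_pos hzZ, cnt_eq_zero hmin] at this
      simp at this
    · intro s hs h
      rw [adj_row (htv.trans hs.1.symm)] at h
      have := hmin _ hs.2
      rcases h with h | h
      · exact h1 (by rw [← hti, ← h]; exact hs.2)
      · omega

/-- Interlacing of an outer set `O` and an inner set `I`. -/
def Interl (O I : Finset ℤ) : Prop :=
  O.card = I.card + 1 ∧ (∀ u ∈ O, cnt O u = cnt I u) ∧ ∀ u ∈ I, cnt O (u + 1) = cnt I u + 1

/-- The cells of a row, with the up triangles at `O` and the down triangles at `I` removed. -/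
noncomputable def rowCells (lo hi : ℤ) (O I : Finset ℤ) : Finset ℤ :=
  (Finset.Icc (2 * lo) (2 * hi)).filter fun z => ¬ (z % 2 = 0 ∧ z / 2 ∈ O) ∧ ¬ (z % 2 = 1 ∧ z / 2 ∈ I)

lemma rowCells_cond {lo hi : ℤ} (hlh : lo ≤ hi) {O I : Finset ℤ} (hO : ∀ u ∈ O, lo ≤ u ∧ u ≤ hi)
    (hI : ∀ u ∈ I, lo ≤ u ∧ u < hi) :
    (∀ w, w ∉ rowCells lo hi O I → Even (cnt (rowCells lo hi O I) w)) ↔ Interl O I := by
  set Z := rowCells lo hi O I with hZ
  have hmem : ∀ z, z ∈ Z ↔ (2 * lo ≤ z ∧ z ≤ 2 * hi) ∧ ¬ (z % 2 = 0 ∧ z / 2 ∈ O) ∧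
      ¬ (z % 2 = 1 ∧ z / 2 ∈ I) := by
    intro z; simp [hZ, rowCells]
  have he : ∀ u, lo ≤ u → u ≤ hi → (2 * u ∈ Z ↔ u ∉ O) := by
    intro u h1 h2
    rw [hmem, show 2 * u / 2 = u by omega, show 2 * u % 2 = 0 by omega]
    simp
    omega
  have ho : ∀ u, lo ≤ u → u < hi → (2 * u + 1 ∈ Z ↔ u ∉ I) := by
    intro u h1 h2
    rw [hmem, show (2 * u + 1) / 2 = u by omega, show (2 * u + 1) % 2 = 1 by omega]
    simp
    omega
  have hA : ∀ u, lo ≤ u → u ≤ hi → (cnt Z (2 * u) + cnt O u + cnt I u : ℤ) = 2 * (u - lo) := by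
    intro u hu
    induction u, hu using Int.leInduction with
    | base =>
      intro _
      rw [cnt_eq_zero fun z hz => ((hmem z).1 hz).1.1, cnt_eq_zero fun z hz => (hO z hz).1,
        cnt_eq_zero fun z hz => (hI z hz).1]
      simp
    | succ u hu ih =>
      intro h
      have := ih (by omega)
      rw [show 2 * (u + 1) = 2 * u + 1 + 1 by ring, cnt_succ, cnt_succ, cnt_succ, cnt_succ]
      simp only [he u hu (by omega), ho u hu (by omega)]
      by_cases h1 : u ∈ O <;> by_cases h2 : u ∈ I <;> simp [h1, h2] <;> omega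
  have hB : ∀ u, lo ≤ u → u ≤ hi →
      (cnt Z (2 * u + 1) + cnt O (u + 1) + cnt I u : ℤ) = 2 * (u - lo) + 1 := by
    intro u h1 h2
    have := hA u h1 h2
    rw [cnt_succ, cnt_succ]
    simp only [he u h1 h2]
    by_cases h1 : u ∈ O <;> simp [h1] <;> omega
  have hOc : cnt O (hi + 1) = O.card := cnt_eq_card fun z hz => by have := hO z hz; omega
  have hIc : cnt I hi = I.card := cnt_eq_card fun z hz => (hI z hz).2
  constructor
  · intro h
    have hd : ∀ u, lo ≤ u → u ≤ hi → cnt O u = cnt I u ∨ cnt O u = cnt I u + 1 := by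
      intro u hu
      induction u, hu using Int.leInduction with
      | base =>
        intro _
        rw [cnt_eq_zero fun z hz => (hO z hz).1, cnt_eq_zero fun z hz => (hI z hz).1]
        simp
      | succ u hu ih =>
        intro h2
        have i1 := ih (by omega)
        have a1 := hA u hu (by omega)
        have a2 := hB u hu (by omega)
        have p1 := h (2 * u)
        have p2 := h (2 * u + 1)
        rw [he u hu (by omega), Nat.even_iff] at p1
        rw [ho u hu (by omega), Nat.even_iff] at p2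
        rw [cnt_succ O] at a2 ⊢
        rw [cnt_succ I]
        by_cases h1 : u ∈ O <;> by_cases h2 : u ∈ I <;> simp [h1, h2] at p1 p2 a2 ⊢ <;> omega
    have h2 : ∀ u ∈ O, cnt O u = cnt I u := by
      intro u hu
      have := hO u hu
      have p1 := h (2 * u)
      rw [he u this.1 this.2, Nat.even_iff] at p1
      have := p1 (by simpa using hu)
      have := hA u (hO u hu).1 (hO u hu).2
      have := hd u (hO u hu).1 (hO u hu).2
      omega
    have h3 : ∀ u, lo ≤ u → u ≤ hi → 2 * u + 1 ∉ Z → cnt O (u + 1) = cnt I u + 1 := by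
      intro u h1 h1' hu
      have p2 := h _ hu
      rw [Nat.even_iff] at p2
      have a2 := hB u h1 h1'
      have := hd u h1 h1'
      have := h2 u
      rw [cnt_succ O] at a2 ⊢
      by_cases h1 : u ∈ O <;> simp [h1] at this a2 ⊢ <;> omega
    refine ⟨?_, h2, fun u hu => h3 u (hI u hu).1 (hI u hu).2.le ?_⟩
    · rw [← hOc, ← hIc]
      exact h3 hi hlh le_rfl (by rw [hmem]; omega)
    · rw [ho u (hI u hu).1 (hI u hu).2]
      simpa using hu
  · rintro ⟨h1, h2, h3⟩ w hw
    rw [Nat.even_iff]
    by_cases c1 : w ≤ 2 * lo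
    · rw [cnt_eq_zero fun z hz => by have := ((hmem z).1 hz).1; omega]
    by_cases c2 : 2 * hi < w
    · have e1 : cnt Z w = cnt Z (2 * hi + 1) := by
        rw [cnt_eq_card fun z hz => by have := ((hmem z).1 hz).1; omega,
          cnt_eq_card fun z hz => by have := ((hmem z).1 hz).1; omega]
      have := hB hi hlh le_rfl
      omega
    rcases Int.emod_two_eq_zero_or_one w with hp | hp
    · obtain ⟨u, rfl⟩ : ∃ u, w = 2 * u := ⟨w / 2, by omega⟩
      rw [he u (by omega) (by omega), not_not] at hw
      have := h2 u hw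
      have := hA u (by omega) (by omega)
      omega
    · obtain ⟨u, rfl⟩ : ∃ u, w = 2 * u + 1 := ⟨w / 2, by omega⟩
      rw [ho u (by omega) (by omega), not_not] at hw
      have := h3 u hw
      have := hB u (by omega) (by omega)
      omega

lemma cnt_image {k : ℕ} {a : Fin k → ℤ} (ha : StrictMono a) (x : ℤ) :
    cnt (Finset.univ.image a) x = (Finset.univ.filter fun j => a j < x).card := by
  unfold cnt
  rw [Finset.filter_image, Finset.card_image_of_injective _ ha.injective]

lemma cnt_image_eq {k : ℕ} {a : Fin k → ℤ} (ha : StrictMono a) (x : ℤ) (n : ℕ) (hn : n ≤ k)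
    (h : ∀ j : Fin k, a j < x ↔ j.val < n) : cnt (Finset.univ.image a) x = n := by
  rw [cnt_image ha, Finset.filter_congr (q := fun j : Fin k => j.val < n) fun j _ => h j,
    Fin.card_filter_val_lt]
  omega

lemma lt_iff_lt_cnt {k : ℕ} {a : Fin k → ℤ} (ha : StrictMono a) (x : ℤ) (i : Fin k) :
    a i < x ↔ i.val < cnt (Finset.univ.image a) x := by
  rw [cnt_image ha]
  constructor
  · intro h
    have : Finset.Iic i ⊆ Finset.univ.filter fun j => a j < x := by
      intro j hj
      simp only [Finset.mem_filter, Finset.mem_univ, true_and]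
      exact (ha.monotone (Finset.mem_Iic.1 hj)).trans_lt h
    have := Finset.card_le_card this
    rw [Fin.card_Iic] at this
    omega
  · intro h
    by_contra h'
    have : (Finset.univ.filter fun j => a j < x) ⊆ Finset.Iio i := by
      intro j hj
      simp only [Finset.mem_filter, Finset.mem_univ, true_and] at hj
      rw [Finset.mem_Iio]
      exact ha.lt_iff_lt.1 (hj.trans_le (not_lt.1 h'))
    have := Finset.card_le_card this
    rw [Fin.card_Iio] at this
    omega

open Classical in
lemma sum_interl {k : ℕ} {o : Fin (k + 1) → ℤ} (ho : StrictMono o) {lo hi : ℤ}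
    (hO : ∀ i, lo ≤ o i ∧ o i ≤ hi) (g : Finset ℤ → ℝ) :
    ∑ I ∈ (Finset.Ico lo hi).powerset, (if Interl (Finset.univ.image o) I then g I else 0) =
      ∑ f ∈ Fintype.piFinset fun i : Fin k => Finset.Ico (o i.castSucc) (o i.succ),
        g (Finset.univ.image f) := by
  rw [← Finset.sum_filter]
  symm
  have hmono : ∀ f ∈ Fintype.piFinset fun i : Fin k => Finset.Ico (o i.castSucc) (o i.succ),
      StrictMono f := by
    intro f hf i j hij
    rw [Fintype.mem_piFinset] at hf
    have h1 := (Finset.mem_Ico.1 (hf i)).2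
    have h2 := (Finset.mem_Ico.1 (hf j)).1
    have : o i.succ ≤ o j.castSucc := ho.monotone (by
      rw [Fin.le_def]; simp; exact hij)
    omega
  refine Finset.sum_bij (fun f _ => Finset.univ.image f) ?_ ?_ ?_ fun _ _ => rfl
  · intro f hf
    have hm := hmono f hf
    rw [Fintype.mem_piFinset] at hf
    simp only [Finset.mem_Ico] at hf
    rw [Finset.mem_filter, Finset.mem_powerset]
    refine ⟨?_, ?_, ?_, ?_⟩
    · intro u hu
      obtain ⟨i, -, rfl⟩ := Finset.mem_image.1 hu
      have := hf i
      have := hO i.castSucc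
      have := hO i.succ
      rw [Finset.mem_Ico]
      omega
    · rw [Finset.card_image_of_injective _ ho.injective,
        Finset.card_image_of_injective _ hm.injective]
      simp
    · intro u hu
      obtain ⟨i, -, rfl⟩ := Finset.mem_image.1 hu
      rw [cnt_image_eq ho _ i (by omega) fun j => ho.lt_iff_lt, cnt_image_eq hm _ i (by omega)]
      intro j
      constructor
      · intro h
        have : o j.castSucc < o i := (hf j).1.trans_lt h
        exact ho.lt_iff_lt.1 this
      · intro h
        refine (hf j).2.trans_le (ho.monotone ?_)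
        rw [Fin.le_def]; simp; omega
    · intro u hu
      obtain ⟨i, -, rfl⟩ := Finset.mem_image.1 hu
      rw [cnt_image_eq hm _ i (by omega) fun j => hm.lt_iff_lt, cnt_image_eq ho _ (i + 1) (by omega)]
      intro j
      constructor
      · intro h
        have : o j < o i.succ := by have := (hf i).2; omega
        have := ho.lt_iff_lt.1 this
        rw [Fin.lt_def] at this
        simpa using this
      · intro h
        have : o j ≤ o i.castSucc := ho.monotone (by rw [Fin.le_def]; simp; omega)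
        have := (hf i).1
        omega
  · intro f hf f' hf' h
    have hm := hmono f hf
    have hm' := hmono f' hf'
    have hc : (Finset.univ.image f).card = k := by
      rw [Finset.card_image_of_injective _ hm.injective]; simp
    rw [Finset.orderEmbOfFin_unique hc (f := f) (fun i => Finset.mem_image_of_mem _ (by simp)) hm,
      Finset.orderEmbOfFin_unique hc (f := f') (fun i => by
        rw [h]; exact Finset.mem_image_of_mem _ (by simp)) hm']
  · intro I hI
    rw [Finset.mem_filter] at hI
    obtain ⟨-, h1, h2, -⟩ := hI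
    have hc : I.card = k := by
      rw [Finset.card_image_of_injective _ ho.injective] at h1
      simpa using h1.symm
    have hm : StrictMono (I.orderEmbOfFin hc) := (I.orderEmbOfFin hc).strictMono
    have him : Finset.univ.image (I.orderEmbOfFin hc) = I := by
      apply Finset.coe_injective
      simp
    refine ⟨I.orderEmbOfFin hc, ?_, him⟩
    rw [Fintype.mem_piFinset]
    intro i
    have key : ∀ j : Fin (k + 1), I.orderEmbOfFin hc i < o j ↔ i.val < j.val := by
      intro j
      rw [lt_iff_lt_cnt hm, him, ← h2 _ (Finset.mem_image_of_mem _ (by simp)),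
        cnt_image_eq ho _ j (by omega) fun j => ho.lt_iff_lt]
    rw [Finset.mem_Ico, ← not_lt, key, key]
    simp

end Pool.Agent.Lib.MP_0b03d8_co
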