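import Pool.Agent.Lib.MP_0b03d8_co.Defs

set_option autoImplicit false

open Filter Topology Set

namespace Pool.Agent.Lib.MP_0b03d8_co

noncomputable def psi1 (t : ℝ) : ℝ := t * Real.log t + t / 2

lemma psi_deriv {t : ℝ} (ht : t ≠ 0) : HasDerivAt psi (psi1 t) t := by
  have h := ((hasDerivAt_id t).mul (Real.hasDerivAt_mul_log ht)).div_const 2
  have e : psi = fun x : ℝ => id x * (x * Real.log x) / 2 := by
    ext x; simp only [psi, id]; ring
  rw [e]
  refine h.congr_deriv ?_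
  simp only [psi1, id]
  ring

lemma psi1_deriv {t : ℝ} (ht : t ≠ 0) : HasDerivAt psi1 (Real.log t + 3 / 2) t :=
  ((Real.hasDerivAt_mul_log ht).add ((hasDerivAt_id t).div_const 2)).congr_deriv (by ring)

noncomputable def slit1 (p h t : ℝ) : ℝ :=
  psi1 (1 - p / 2 + t) - psi1 (t + h) / 2 - psi1 (t + 2 - p) / 2

noncomputable def slit2 (p h t : ℝ) : ℝ :=
  Real.log (1 - p / 2 + t) - Real.log (t + h) / 2 - Real.log (t + 2 - p) / 2

section
variable {p h : ℝ} (hp : p < 2) (hh : 0 < h)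
include hp hh

lemma slit_deriv {t : ℝ} (ht : 0 ≤ t) : HasDerivAt (slit p h) (slit1 p h t) t := by
  have h1 := (psi_deriv (t := 1 - p / 2 + t) (by linarith)).comp t ((hasDerivAt_id t).const_add _)
  have h2 := (psi_deriv (t := t + h) (by linarith)).comp t ((hasDerivAt_id t).add_const _)
  have h3 := (psi_deriv (t := t + 2 - p) (by linarith)).comp t
    (((hasDerivAt_id t).add_const 2).sub_const p)
  exact ((h1.sub (h2.div_const 2)).sub (h3.div_const 2)).congr_deriv (by simp [slit1])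

lemma slit1_deriv {t : ℝ} (ht : 0 ≤ t) : HasDerivAt (slit1 p h) (slit2 p h t) t := by
  have h1 := (psi1_deriv (t := 1 - p / 2 + t) (by linarith)).comp t ((hasDerivAt_id t).const_add _)
  have h2 := (psi1_deriv (t := t + h) (by linarith)).comp t ((hasDerivAt_id t).add_const _)
  have h3 := (psi1_deriv (t := t + 2 - p) (by linarith)).comp t
    (((hasDerivAt_id t).add_const 2).sub_const p)
  exact ((h1.sub (h2.div_const 2)).sub (h3.div_const 2)).congr_deriv (by simp [slit2]; ring)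

end

noncomputable def G (p h a : ℝ) : ℝ := slit p h a + slit p h (p - a)
noncomputable def G1 (p h a : ℝ) : ℝ := slit1 p h a - slit1 p h (p - a)
noncomputable def G2 (p h a : ℝ) : ℝ := slit2 p h a + slit2 p h (p - a)

/-- The sign of `G2`. -/
noncomputable def Q (p h a : ℝ) : ℝ :=
  ((1 - p / 2) ^ 2 + (1 - p / 2) * p) ^ 2 - (h ^ 2 + h * p) * (4 * (1 - p / 2) ^ 2 + 2 * (1 - p / 2) * p)
    - (2 * (1 - p / 2) ^ 2 + h ^ 2 + h * p) * (a * (p - a))

lemma G_symm (p h a : ℝ) : G p h (p - a) = G p h a := by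
  simp only [G, sub_sub_cancel, add_comm]

section
variable {p h : ℝ} (hp0 : 0 < p) (hp : p < 2) (hh : 0 < h)
include hp hh

lemma G_deriv {a : ℝ} (ha : a ∈ Icc 0 p) : HasDerivAt (G p h) (G1 p h a) a := by
  have h1 := (slit_deriv hp hh (t := p - a) (by linarith [ha.2])).comp a
    ((hasDerivAt_id a).const_sub p)
  exact ((slit_deriv hp hh ha.1).add h1).congr_deriv (by simp [G1]; ring)

lemma G1_deriv {a : ℝ} (ha : a ∈ Icc 0 p) : HasDerivAt (G1 p h) (G2 p h a) a := by
  have h1 := (slit1_deriv hp hh (t := p - a) (by linarith [ha.2])).comp a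
    ((hasDerivAt_id a).const_sub p)
  exact ((slit1_deriv hp hh ha.1).sub h1).congr_deriv (by simp [G2])

lemma G2_eq {a : ℝ} (ha : a ∈ Icc 0 p) : ∃ X : ℝ, 0 < X ∧ 0 < X + Q p h a ∧
    2 * G2 p h a = Real.log (X + Q p h a) - Real.log X := by
  have a1 := ha.1
  have a2 := ha.2
  have p1 : 0 < 1 - p / 2 + a := by linarith
  have p2 : 0 < 1 - p / 2 + (p - a) := by linarith
  have p3 : 0 < a + h := by linarith
  have p4 : 0 < p - a + h := by linarith
  have p5 : 0 < a + 2 - p := by linarith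
  have p6 : 0 < p - a + 2 - p := by linarith
  have e : (a + h) * (p - a + h) * (a + 2 - p) * (p - a + 2 - p) + Q p h a =
      (1 - p / 2 + a) ^ 2 * (1 - p / 2 + (p - a)) ^ 2 := by
    simp only [Q]; ring
  refine ⟨(a + h) * (p - a + h) * (a + 2 - p) * (p - a + 2 - p), by positivity,
    by rw [e]; positivity, ?_⟩
  rw [e, Real.log_mul (by positivity) (by positivity), Real.log_mul (by positivity) p6.ne',
    Real.log_mul (by positivity) p5.ne', Real.log_mul p3.ne' p4.ne', Real.log_pow, Real.log_pow]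
  simp only [G2, slit2]
  push_cast
  ring

lemma G_cont {s t : ℝ} (hs : 0 ≤ s) (ht : t ≤ p) : ContinuousOn (G p h) (Icc s t) := fun a ha =>
  (G_deriv hp hh ⟨hs.trans ha.1, ha.2.trans ht⟩).continuousAt.continuousWithinAt

lemma G_convex {s t : ℝ} (hs : 0 ≤ s) (ht : t ≤ p) (hQ : ∀ a ∈ Icc s t, 0 ≤ Q p h a) :
    ConvexOn ℝ (Icc s t) (G p h) := by
  have sub : ∀ a ∈ interior (Icc s t), a ∈ Icc 0 p := fun a ha =>
    ⟨hs.trans (interior_subset ha).1, (interior_subset ha).2.trans ht⟩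
  refine convexOn_of_hasDerivWithinAt2_nonneg (convex_Icc s t) (G_cont hp hh hs ht)
    (fun a ha => (G_deriv hp hh (sub a ha)).hasDerivWithinAt)
    (fun a ha => (G1_deriv hp hh (sub a ha)).hasDerivWithinAt) fun a ha => ?_
  obtain ⟨X, h1, h2, h3⟩ := G2_eq hp hh (sub a ha)
  have := Real.log_le_log h1 (le_add_of_nonneg_right (hQ a (interior_subset ha)))
  linarith

lemma G_concave {s t : ℝ} (hs : 0 ≤ s) (ht : t ≤ p) (hQ : ∀ a ∈ Icc s t, Q p h a ≤ 0) :
    ConcaveOn ℝ (Icc s t) (G p h) := by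
  have sub : ∀ a ∈ interior (Icc s t), a ∈ Icc 0 p := fun a ha =>
    ⟨hs.trans (interior_subset ha).1, (interior_subset ha).2.trans ht⟩
  refine concaveOn_of_hasDerivWithinAt2_nonpos (convex_Icc s t) (G_cont hp hh hs ht)
    (fun a ha => (G_deriv hp hh (sub a ha)).hasDerivWithinAt)
    (fun a ha => (G1_deriv hp hh (sub a ha)).hasDerivWithinAt) fun a ha => ?_
  obtain ⟨X, h1, h2, h3⟩ := G2_eq hp hh (sub a ha)
  have := Real.log_le_log h2 (add_le_of_nonpos_right (hQ a (interior_subset ha)))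
  linarith

lemma G_strictConvex (hQ : ∀ a ∈ Icc 0 p, 0 < Q p h a) : StrictConvexOn ℝ (Icc 0 p) (G p h) := by
  refine StrictMonoOn.strictConvexOn_of_deriv (convex_Icc 0 p) (G_cont hp hh le_rfl le_rfl) ?_
  have hm : StrictMonoOn (G1 p h) (Icc 0 p) := by
    refine strictMonoOn_of_deriv_pos (convex_Icc 0 p)
      (fun a ha => (G1_deriv hp hh ha).continuousAt.continuousWithinAt) fun a ha => ?_
    rw [(G1_deriv hp hh (interior_subset ha)).deriv]
    obtain ⟨X, h1, h2, h3⟩ := G2_eq hp hh (interior_subset ha)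
    have := Real.log_lt_log h1 (lt_add_of_pos_right X (hQ a (interior_subset ha)))
    linarith
  intro a ha b hb hab
  rw [(G_deriv hp hh (interior_subset ha)).deriv, (G_deriv hp hh (interior_subset hb)).deriv]
  exact hm (interior_subset ha) (interior_subset hb) hab

include hp0

lemma Q_anti {a b : ℝ} (hab : a * (p - a) ≤ b * (p - b)) : Q p h b ≤ Q p h a := by
  have : 0 ≤ 2 * (1 - p / 2) ^ 2 + h ^ 2 + h * p := by positivity
  have := mul_le_mul_of_nonneg_left hab this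
  simp only [Q]
  linarith

lemma G_min (hs : h * (2 - p / 2) < (1 - p / 2) ^ 2) {a : ℝ} (ha : a ∈ Icc 0 p) (hne : a ≠ p / 2) :
    G p h (p / 2) < G p h a := by
  have hQ : 0 < Q p h (p / 2) := by
    have e : Q p h (p / 2) = (1 - (p / 2 + h) * (2 - p / 2)) * (1 + (p / 2 + h) * (2 - p / 2)) := by
      simp only [Q]; ring
    rw [e]
    have : 0 < 2 - p / 2 := by linarith
    exact mul_pos (by nlinarith) (by positivity)
  have hc := G_strictConvex hp hh fun a _ =>
    hQ.trans_le (Q_anti hp0 hp hh (by nlinarith [sq_nonneg (a - p / 2)]))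
  have := hc.2 ha (show p - a ∈ Icc 0 p from ⟨by linarith [ha.2], by linarith [ha.1]⟩)
    (fun e => hne (by linarith)) (show (0 : ℝ) < 1 / 2 by norm_num) (show (0 : ℝ) < 1 / 2 by norm_num)
    (by norm_num)
  rw [G_symm, smul_eq_mul, smul_eq_mul, smul_eq_mul,
    show 1 / 2 * a + 1 / 2 * (p - a) = p / 2 by ring] at this
  linarith

lemma G_le_of_Q {a : ℝ} (ha : a ∈ Icc 0 (p / 2)) (hQ : Q p h a ≤ 0) : G p h a ≤ G p h (p / 2) := by
  have a1 := ha.1
  have a2 := ha.2
  have hc := G_concave hp hh (s := a) (t := p - a) a1 (by linarith) fun b hb =>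
    (Q_anti hp0 hp hh (by nlinarith [hb.1, hb.2])).trans hQ
  have := hc.2 (show a ∈ Icc a (p - a) from ⟨le_rfl, by linarith⟩)
    (show p - a ∈ Icc a (p - a) from ⟨by linarith, le_rfl⟩) (show (0 : ℝ) ≤ 1 / 2 by norm_num)
    (show (0 : ℝ) ≤ 1 / 2 by norm_num) (by norm_num)
  rw [G_symm, smul_eq_mul, smul_eq_mul, smul_eq_mul,
    show 1 / 2 * a + 1 / 2 * (p - a) = p / 2 by ring] at this
  linarith

lemma G_max (h0 : G p h 0 ≤ G p h (p / 2)) {a : ℝ} (ha : a ∈ Icc 0 p) :
    G p h a ≤ G p h (p / 2) := by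
  have key : ∀ a ∈ Icc 0 (p / 2), G p h a ≤ G p h (p / 2) := by
    intro a ha
    rcases le_or_gt (Q p h a) 0 with hQ | hQ
    · exact G_le_of_Q hp0 hp hh ha hQ
    obtain ⟨s, hs, hsQ, hsG⟩ : ∃ s ∈ Icc a (p / 2), 0 ≤ Q p h s ∧ G p h s ≤ G p h (p / 2) := by
      rcases le_or_gt 0 (Q p h (p / 2)) with hQ' | hQ'
      · exact ⟨p / 2, ⟨ha.2, le_rfl⟩, hQ', le_rfl⟩
      · have hcont : ContinuousOn (Q p h) (Icc a (p / 2)) := by
          unfold Q; fun_prop
        obtain ⟨s, hs, e⟩ := intermediate_value_Icc' ha.2 hcont ⟨hQ'.le, hQ.le⟩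
        exact ⟨s, hs, e.ge, G_le_of_Q hp0 hp hh ⟨ha.1.trans hs.1, hs.2⟩ e.le⟩
    have s1 := hs.2
    have hc := G_convex hp hh (s := 0) (t := s) le_rfl (by linarith) fun b hb =>
      hsQ.trans (Q_anti hp0 hp hh (by nlinarith [hb.1, hb.2]))
    have := hc.le_max_of_mem_Icc (x := 0) (y := s) (z := a) ⟨le_rfl, ha.1.trans hs.1⟩
      ⟨ha.1.trans hs.1, le_rfl⟩ ⟨ha.1, hs.1⟩
    exact this.trans (max_le h0 hsG)
  rcases le_total a (p / 2) with h1 | h1
  · exact key a ⟨ha.1, h1⟩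
  · rw [← G_symm]
    exact key _ ⟨by linarith [ha.2], by linarith⟩

lemma G_zero_le (H : ∀ a ∈ Ioo 0 p, G p h a ≤ G p h (p / 2)) : G p h 0 ≤ G p h (p / 2) := by
  have h1 : Tendsto (G p h) (𝓝[>] 0) (𝓝 (G p h 0)) :=
    (G_deriv hp hh ⟨le_rfl, hp0.le⟩).continuousAt.tendsto.mono_left nhdsWithin_le_nhds
  exact le_of_tendsto h1 (by filter_upwards [Ioo_mem_nhdsGT hp0] with a ha using H a ha)

lemma G_zero_le_of_large (hl : (1 - p / 2) / 2 ≤ h) : G p h 0 ≤ G p h (p / 2) := by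
  refine G_le_of_Q hp0 hp hh ⟨le_rfl, by linarith⟩ ?_
  have hν : 0 < 1 - p / 2 := by linarith
  set ν := 1 - p / 2 with hν'
  have h1 : (ν / 2) ^ 2 + ν / 2 * p ≤ h ^ 2 + h * p := by nlinarith
  have h2 := mul_le_mul_of_nonneg_right h1 (show 0 ≤ 4 * ν ^ 2 + 2 * ν * p by positivity)
  have h3 : 0 ≤ ν ^ 3 * p := by positivity
  simp only [Q, ← hν']
  nlinarith

end

lemma rate_eq (p h : ℝ) {r : ℝ} (hr : 0 < r) : rate p h r = base p h + G p h (p * r / (1 + r)) := by
  rw [rate, G, show p - p * r / (1 + r) = p / (1 + r) by field_simp; ring, add_assoc]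

lemma rate_one (p h : ℝ) : rate p h 1 = base p h + G p h (p / 2) := by
  rw [rate_eq p h one_pos]; norm_num

lemma mem_of_pos {p r : ℝ} (hp : 0 < p) (hr : 0 < r) : p * r / (1 + r) ∈ Icc 0 p :=
  ⟨by positivity, by rw [div_le_iff₀ (by linarith)]; nlinarith⟩

theorem rate_max_iff {p h : ℝ} (hp0 : 0 < p) (hp : p < 2) (hh : 0 < h) :
    (∀ r, 0 < r → rate p h r ≤ rate p h 1) ↔ slit p h 0 + slit p h p ≤ 2 * slit p h (p / 2) := by
  have e : (slit p h 0 + slit p h p ≤ 2 * slit p h (p / 2)) ↔ G p h 0 ≤ G p h (p / 2) := by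
    simp only [G, sub_zero, show p - p / 2 = p / 2 by ring, two_mul]
  rw [e]
  constructor
  · intro H
    refine G_zero_le hp0 hp hh fun a ha => ?_
    have h1 : 0 < p - a := by linarith [ha.2]
    have h2 := H (a / (p - a)) (div_pos ha.1 h1)
    rw [rate_eq p h (div_pos ha.1 h1), rate_one,
      show p * (a / (p - a)) / (1 + a / (p - a)) = a by
        rw [show 1 + a / (p - a) = p / (p - a) by field_simp; ring]; field_simp] at h2
    linarith
  · intro H r hr
    rw [rate_eq p h hr, rate_one]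
    have := G_max hp0 hp hh H (mem_of_pos hp0 hr)
    linarith

theorem rate_min {p h : ℝ} (hp0 : 0 < p) (hp : p < 2) (hh : 0 < h)
    (hs : h * (2 - p / 2) < (1 - p / 2) ^ 2) {r : ℝ} (hr : 0 < r) (hr1 : r ≠ 1) :
    rate p h 1 < rate p h r := by
  rw [rate_eq p h hr, rate_one]
  have := G_min hp0 hp hh hs (mem_of_pos hp0 hr) (by
    intro e
    rw [div_eq_div_iff (by linarith) (by norm_num)] at e
    have : p * (r - 1) = 0 := by linarith
    rcases mul_eq_zero.1 this with h | h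
    · linarith
    · exact hr1 (by linarith))
  linarith

theorem rate_max_of_large {p h : ℝ} (hp0 : 0 < p) (hp : p < 2) (hh : 0 < h)
    (hl : (1 - p / 2) / 2 ≤ h) {r : ℝ} (hr : 0 < r) : rate p h r ≤ rate p h 1 := by
  rw [rate_eq p h hr, rate_one]
  have := G_max hp0 hp hh (G_zero_le_of_large hp0 hp hh hl) (mem_of_pos hp0 hr)
  linarith

end Pool.Agent.Lib.MP_0b03d8_co
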