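import Pool.Agent.Lib.MP_0b03d8_co.Defs

set_option autoImplicit false

open Set

namespace Pool.Agent.Lib.MP_0b03d8_co

def Adj (s t : Tri) : Prop := (verts s ∩ verts t).card = 2

lemma card_inter_three {α : Type*} [DecidableEq α] (a b c : α) (S : Finset α) (hab : a ≠ b)
    (hac : a ≠ c) (hbc : b ≠ c) :
    (({a, b, c} : Finset α) ∩ S).card =
      (if a ∈ S then 1 else 0) + (if b ∈ S then 1 else 0) + (if c ∈ S then 1 else 0) := by
  rw [← Finset.filter_mem_eq_inter, Finset.card_filter, Finset.sum_insert (by simp [hab, hac]),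
    Finset.sum_insert (by simp [hbc]), Finset.sum_singleton, add_assoc]

lemma adj_iff (s t : Tri) : Adj s t ↔
    (s.2.2 = true ∧ t.2.2 = false ∧ ((t.1 = s.1 ∧ t.2.1 = s.2.1) ∨ (t.1 + 1 = s.1 ∧ t.2.1 = s.2.1) ∨
      (t.1 = s.1 ∧ t.2.1 + 1 = s.2.1))) ∨
    (s.2.2 = false ∧ t.2.2 = true ∧ ((t.1 = s.1 ∧ t.2.1 = s.2.1) ∨ (t.1 = s.1 + 1 ∧ t.2.1 = s.2.1) ∨
      (t.1 = s.1 ∧ t.2.1 = s.2.1 + 1))) := by
  obtain ⟨u, v, b⟩ := s
  obtain ⟨u', v', b'⟩ := t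
  unfold Adj
  cases b <;> cases b' <;> simp only [verts, if_true, if_false, Bool.false_eq_true] <;>
    rw [card_inter_three _ _ _ _ (by simp) (by simp) (by simp)] <;>
    simp only [Finset.mem_insert, Finset.mem_singleton, Prod.mk.injEq] <;>
    split_ifs <;> simp <;> omega

lemma Adj.symm {s t : Tri} (h : Adj s t) : Adj t s := by
  unfold Adj at *; rwa [Finset.inter_comm]

lemma Adj.ne {s t : Tri} (h : Adj s t) : s ≠ t := by
  rintro rfl
  rw [adj_iff] at h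
  rcases h with ⟨h1, h2, -⟩ | ⟨h1, h2, -⟩ <;> simp [h1] at h2

lemma isLozenge_iff (l : Set Tri) : IsLozenge l ↔ ∃ s t, Adj s t ∧ l = {s, t} := Iff.rfl

lemma IsLozenge.exists_of_mem {l : Set Tri} (hl : IsLozenge l) {t : Tri} (ht : t ∈ l) :
    ∃ s, Adj t s ∧ l = {t, s} := by
  obtain ⟨a, b, hab, rfl⟩ := hl
  rcases ht with rfl | rfl
  · exact ⟨b, hab, rfl⟩
  · exact ⟨a, Adj.symm hab, Set.pair_comm _ _⟩

lemma IsLozenge.nonempty {l : Set Tri} (hl : IsLozenge l) : l.Nonempty := by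
  obtain ⟨a, b, -, rfl⟩ := hl
  exact ⟨a, by simp⟩

/-- The number of tilings. -/
noncomputable def M (R : Set Tri) : ℕ := (Tilings R).ncard

lemma tilings_finite {R : Set Tri} (hR : R.Finite) : (Tilings R).Finite :=
  (hR.finite_subsets.finite_subsets).subset fun _ hS l hl => (hS.1 l hl).2

lemma Tilings.eq_of_mem {R : Set Tri} {S : Set (Set Tri)} (hS : S ∈ Tilings R) {l l' : Set Tri}
    (hl : l ∈ S) (hl' : l' ∈ S) {t : Tri} (ht : t ∈ l) (ht' : t ∈ l') : l = l' :=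
  (hS.2 t ((hS.1 l hl).2 ht)).unique ⟨hl, ht⟩ ⟨hl', ht'⟩

lemma M_empty : M ∅ = 1 := by
  have : Tilings ∅ = {∅} := by
    ext S
    constructor
    · intro hS
      rw [mem_singleton_iff, eq_empty_iff_forall_notMem]
      intro l hl
      obtain ⟨t, ht⟩ := (hS.1 l hl).1.nonempty
      exact (hS.1 l hl).2 ht
    · rintro rfl
      exact ⟨by simp, by simp⟩
  simp [M, this]

lemma union_mem_tilings {A B : Set Tri} (hAB : Disjoint A B) {S S' : Set (Set Tri)}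
    (hS : S ∈ Tilings A) (hS' : S' ∈ Tilings B) : S ∪ S' ∈ Tilings (A ∪ B) := by
  refine ⟨?_, ?_⟩
  · rintro l (hl | hl)
    · exact ⟨(hS.1 l hl).1, (hS.1 l hl).2.trans subset_union_left⟩
    · exact ⟨(hS'.1 l hl).1, (hS'.1 l hl).2.trans subset_union_right⟩
  · rintro t (ht | ht)
    · obtain ⟨l, ⟨hl, htl⟩, hu⟩ := hS.2 t ht
      refine ⟨l, ⟨Or.inl hl, htl⟩, ?_⟩
      rintro l' ⟨hl' | hl', htl'⟩
      · exact hu l' ⟨hl', htl'⟩
      · exact (Set.disjoint_left.1 hAB ht ((hS'.1 l' hl').2 htl')).elim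
    · obtain ⟨l, ⟨hl, htl⟩, hu⟩ := hS'.2 t ht
      refine ⟨l, ⟨Or.inr hl, htl⟩, ?_⟩
      rintro l' ⟨hl' | hl', htl'⟩
      · exact (Set.disjoint_left.1 hAB ((hS.1 l' hl').2 htl') ht).elim
      · exact hu l' ⟨hl', htl'⟩

lemma tilings_disjoint {A B : Set Tri} (hAB : Disjoint A B) {S S' : Set (Set Tri)}
    (hS : S ∈ Tilings A) (hS' : S' ∈ Tilings B) : Disjoint S S' := by
  rw [Set.disjoint_left]
  intro l hl hl'
  obtain ⟨t, ht⟩ := (hS.1 l hl).1.nonempty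
  exact Set.disjoint_left.1 hAB ((hS.1 l hl).2 ht) ((hS'.1 l hl').2 ht)

/-- Removing a fixed partial tiling. -/
lemma ncard_remove {R K : Set Tri} (hKR : K ⊆ R) {S₀ : Set (Set Tri)} (h₀ : S₀ ∈ Tilings K)
    (Q : Set (Set Tri) → Prop) :
    {S | S ∈ Tilings R ∧ S₀ ⊆ S ∧ Q (S \ S₀)}.ncard = {S | S ∈ Tilings (R \ K) ∧ Q S}.ncard := by
  symm
  refine Set.ncard_congr (fun S _ => S ∪ S₀) ?_ ?_ ?_
  · rintro S ⟨hS, hQ⟩
    have hd : Disjoint S S₀ := tilings_disjoint disjoint_sdiff_left hS h₀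
    refine ⟨?_, subset_union_right, ?_⟩
    · have := union_mem_tilings disjoint_sdiff_left hS h₀
      rwa [sdiff_union_of_subset hKR] at this
    · rwa [union_sdiff_right, hd.sdiff_eq_left]
  · rintro S S' ⟨hS, -⟩ ⟨hS', -⟩ h
    have hd : Disjoint S S₀ := tilings_disjoint disjoint_sdiff_left hS h₀
    have hd' : Disjoint S' S₀ := tilings_disjoint disjoint_sdiff_left hS' h₀
    have h2 : (S ∪ S₀) \ S₀ = (S' ∪ S₀) \ S₀ := by rw [h]
    rwa [union_sdiff_right, union_sdiff_right, hd.sdiff_eq_left, hd'.sdiff_eq_left] at h2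
  · rintro S ⟨hS, hsub, hQ⟩
    refine ⟨S \ S₀, ⟨⟨?_, ?_⟩, hQ⟩, sdiff_union_of_subset hsub⟩
    · rintro l ⟨hl, hl0⟩
      refine ⟨(hS.1 l hl).1, fun t ht => ⟨(hS.1 l hl).2 ht, fun htK => hl0 ?_⟩⟩
      obtain ⟨l', ⟨hl', htl'⟩, -⟩ := h₀.2 t htK
      rw [Tilings.eq_of_mem hS hl (hsub hl') ht htl']
      exact hl'
    · rintro t ⟨ht, htK⟩
      obtain ⟨l, ⟨hl, htl⟩, hu⟩ := hS.2 t ht
      exact ⟨l, ⟨⟨hl, fun h => htK ((h₀.1 l h).2 htl)⟩, htl⟩, fun l' h => hu l' ⟨h.1.1, h.2⟩⟩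

lemma filter_mem_tilings {A B : Set Tri} (hAB : Disjoint A B) {S : Set (Set Tri)}
    (hS : S ∈ Tilings (A ∪ B)) (h : ∀ l ∈ S, l ⊆ A ∨ l ⊆ B) : {l ∈ S | l ⊆ A} ∈ Tilings A := by
  refine ⟨fun l hl => ⟨(hS.1 l hl.1).1, hl.2⟩, fun t ht => ?_⟩
  obtain ⟨l, ⟨hl, htl⟩, hu⟩ := hS.2 t (Or.inl ht)
  refine ⟨l, ⟨⟨hl, ?_⟩, htl⟩, fun l' h' => hu l' ⟨h'.1.1, h'.2⟩⟩
  rcases h l hl with h | h
  · exact h
  · exact (Set.disjoint_left.1 hAB ht (h htl)).elim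

/-- Tilings of a disjoint union without crossing lozenges. -/
lemma ncard_prod_tilings {A B : Set Tri} (hAB : Disjoint A B) :
    {S | S ∈ Tilings (A ∪ B) ∧ ∀ l ∈ S, l ⊆ A ∨ l ⊆ B}.ncard = M A * M B := by
  rw [M, M, ← Set.ncard_prod]
  symm
  refine Set.ncard_congr (fun S _ => S.1 ∪ S.2) ?_ ?_ ?_
  · rintro ⟨S, S'⟩ ⟨hS, hS'⟩
    refine ⟨union_mem_tilings hAB hS hS', ?_⟩
    rintro l (hl | hl)
    · exact Or.inl (hS.1 l hl).2
    · exact Or.inr (hS'.1 l hl).2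
  · have key : ∀ {A B : Set Tri}, Disjoint A B → ∀ S S' : Set (Set Tri), S ∈ Tilings A →
        S' ∈ Tilings B → {l ∈ S ∪ S' | l ⊆ A} = S := by
      intro A B hAB S S' hS hS'
      ext l
      constructor
      · rintro ⟨hl | hl, hA⟩
        · exact hl
        · obtain ⟨t, ht⟩ := (hS'.1 l hl).1.nonempty
          exact (Set.disjoint_left.1 hAB (hA ht) ((hS'.1 l hl).2 ht)).elim
      · intro hl
        exact ⟨Or.inl hl, (hS.1 l hl).2⟩
    rintro ⟨S, S'⟩ ⟨U, U'⟩ ⟨hS, hS'⟩ ⟨hU, hU'⟩ h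
    simp only at h hS hS' hU hU'
    refine Prod.ext ?_ ?_
    · show S = U
      rw [← key hAB S S' hS hS', h, key hAB U U' hU hU']
    · show S' = U'
      rw [← key hAB.symm S' S hS' hS, union_comm, h, union_comm, key hAB.symm U' U hU' hU]
  · rintro S ⟨hS, h⟩
    refine ⟨({l ∈ S | l ⊆ A}, {l ∈ S | l ⊆ B}), ⟨filter_mem_tilings hAB hS h, ?_⟩, ?_⟩
    · exact filter_mem_tilings hAB.symm (by rwa [union_comm]) fun l hl => (h l hl).symm
    · ext l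
      constructor
      · rintro (hl | hl) <;> exact hl.1
      · intro hl
        rcases h l hl with h' | h'
        · exact Or.inl ⟨hl, h'⟩
        · exact Or.inr ⟨hl, h'⟩

lemma ncard_fiberwise {α β : Type*} {S : Set α} (hS : S.Finite) (φ : α → β) (X : Finset β)
    (hφ : ∀ s ∈ S, φ s ∈ X) : S.ncard = ∑ c ∈ X, {s | s ∈ S ∧ φ s = c}.ncard := by
  classical
  rw [Set.ncard_eq_toFinset_card S hS,
    Finset.card_eq_sum_card_fiberwise (f := φ) (t := X) (by intro s hs; exact hφ s (by simpa using hs))]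
  refine Finset.sum_congr rfl fun c _ => ?_
  rw [← Set.ncard_coe_finset]
  congr 1
  ext s
  simp

/-- The vertical lozenge on the segment from `(c, y)` to `(c + 1, y)`. -/
def vert (y c : ℤ) : Set Tri := {(c, y, true), (c, y - 1, false)}

lemma vert_loz (y c : ℤ) : IsLozenge (vert y c) :=
  ⟨_, _, (adj_iff _ _).2 (by simp), rfl⟩

lemma vert_tiling (y : ℤ) (C : Set ℤ) :
    vert y '' C ∈ Tilings {t | t.1 ∈ C ∧ ((t.2.2 = true ∧ t.2.1 = y) ∨ (t.2.2 = false ∧ t.2.1 = y - 1))} := by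
  refine ⟨?_, ?_⟩
  · rintro l ⟨c, hc, rfl⟩
    refine ⟨vert_loz y c, ?_⟩
    rintro t (rfl | rfl) <;> simp [hc]
  · rintro ⟨u, v, b⟩ ⟨hc, h⟩
    refine ⟨vert y u, ⟨⟨u, hc, rfl⟩, ?_⟩, ?_⟩
    · rcases h with ⟨h1, h2⟩ | ⟨h1, h2⟩ <;> simp only at h1 h2 <;> simp [vert, h1, h2]
    · rintro l ⟨⟨c, -, rfl⟩, h'⟩
      have : u = c := by
        rcases h' with h' | h' <;> simpa using congrArg Prod.fst h'
      rw [this]

/-- Forced vertical lozenges. -/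
lemma M_forced {R : Set Tri} (y : ℤ) (C : Set ℤ) (h1 : ∀ c ∈ C, (c, y, true) ∈ R)
    (h2 : ∀ c ∈ C, (c, y - 1, false) ∈ R) (h3 : ∀ c ∈ C, (c, y, false) ∉ R)
    (h4 : ∀ c ∈ C, (c - 1, y, false) ∉ R) :
    M R = M (R \ {t | t.1 ∈ C ∧ ((t.2.2 = true ∧ t.2.1 = y) ∨ (t.2.2 = false ∧ t.2.1 = y - 1))}) := by
  have := ncard_remove (R := R) (by
    rintro ⟨u, v, b⟩ ⟨hc, ⟨h, h'⟩ | ⟨h, h'⟩⟩ <;> simp only at h h' hc <;> subst h h'
    · exact h1 u hc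
    · exact h2 u hc) (vert_tiling y C) (fun _ => True)
  simp only [and_true, ofPred_mem_eq] at this
  rw [M, M, ← this]
  congr 1
  ext S
  refine ⟨fun hS => ⟨hS, ?_⟩, fun hS => hS.1⟩
  rintro l ⟨c, hc, rfl⟩
  obtain ⟨l, ⟨hl, htl⟩, -⟩ := hS.2 _ (h1 c hc)
  obtain ⟨⟨u, v, b⟩, hs, rfl⟩ := (hS.1 l hl).1.exists_of_mem htl
  have hsR : (u, v, b) ∈ R := (hS.1 _ hl).2 (by simp)
  rw [adj_iff] at hs
  simp only [true_and, Bool.true_eq_false, false_and, or_false] at hs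
  obtain ⟨rfl, ⟨rfl, rfl⟩ | ⟨h, rfl⟩ | ⟨rfl, h⟩⟩ := hs
  · exact (h3 _ hc hsR).elim
  · obtain rfl : u = c - 1 := by omega
    exact (h4 _ hc hsR).elim
  · obtain rfl : v = y - 1 := by omega
    exact hl

/-- Cutting a region along the horizontal line `v = y`. -/
lemma M_split {R : Set Tri} (hR : R.Finite) (y : ℤ) (X : Finset ℤ)
    (hX : ∀ c, c ∈ X ↔ (c, y, true) ∈ R ∧ (c, y - 1, false) ∈ R) :
    M R = ∑ C ∈ X.powerset,
      M {t | t ∈ R ∧ y ≤ t.2.1 ∧ ¬ (t.1 ∈ C ∧ t.2.2 = true ∧ t.2.1 = y)} *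
      M {t | t ∈ R ∧ t.2.1 < y ∧ ¬ (t.1 ∈ C ∧ t.2.2 = false ∧ t.2.1 = y - 1)} := by
  classical
  rw [M, ncard_fiberwise (tilings_finite hR) (fun S => X.filter (fun c => vert y c ∈ S)) X.powerset
    (fun S _ => Finset.mem_powerset.2 (Finset.filter_subset _ _))]
  refine Finset.sum_congr rfl fun C hC => ?_
  rw [Finset.mem_powerset] at hC
  set A : Set Tri := {t | t ∈ R ∧ y ≤ t.2.1 ∧ ¬ (t.1 ∈ C ∧ t.2.2 = true ∧ t.2.1 = y)} with hA
  set B : Set Tri := {t | t ∈ R ∧ t.2.1 < y ∧ ¬ (t.1 ∈ C ∧ t.2.2 = false ∧ t.2.1 = y - 1)} with hB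
  have hAB : Disjoint A B := by
    rw [Set.disjoint_left]
    intro t h1 h2
    exact absurd h1.2.1 (not_le.2 h2.2.1)
  have hK := vert_tiling y (C : Set ℤ)
  set K : Set Tri := {t | t.1 ∈ (C : Set ℤ) ∧ ((t.2.2 = true ∧ t.2.1 = y) ∨
    (t.2.2 = false ∧ t.2.1 = y - 1))} with hKdef
  have hKR : K ⊆ R := by
    rintro ⟨u, v, b⟩ ⟨hc, ⟨h, h'⟩ | ⟨h, h'⟩⟩ <;> simp only at h h' hc <;> subst h h'
    · exact ((hX u).1 (hC hc)).1
    · exact ((hX u).1 (hC hc)).2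
  have hRK : R \ K = A ∪ B := by
    ext ⟨u, v, b⟩
    simp only [hA, hB, hKdef, mem_sdiff, mem_ofPred_eq, mem_union, Finset.mem_coe]
    by_cases h1 : (u, v, b) ∈ R <;> by_cases h2 : u ∈ C <;> cases b <;> simp [h1, h2] <;> omega
  rw [← ncard_prod_tilings hAB, ← hRK, ← ncard_remove hKR hK (fun S => ∀ l ∈ S, l ⊆ A ∨ l ⊆ B)]
  congr 1
  ext S
  simp only [mem_ofPred_eq]
  refine and_congr_right fun hS => ⟨fun h => ⟨?_, ?_⟩, fun h => ?_⟩
  · rintro l ⟨c, hc, rfl⟩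
    have : c ∈ X.filter (fun c => vert y c ∈ S) := by rw [h]; exact hc
    exact (Finset.mem_filter.1 this).2
  · rintro l ⟨hl, hl0⟩
    have hlK : ∀ t ∈ l, t ∈ A ∪ B := by
      intro t ht
      rw [← hRK]
      refine ⟨(hS.1 l hl).2 ht, fun htK => hl0 ?_⟩
      obtain ⟨l', ⟨⟨c, hc, rfl⟩, htl'⟩, -⟩ := hK.2 t htK
      have : c ∈ X.filter (fun c => vert y c ∈ S) := by rw [h]; exact hc
      rw [Tilings.eq_of_mem hS hl (Finset.mem_filter.1 this).2 ht htl']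
      exact ⟨c, hc, rfl⟩
    have cross : ∀ s t : Tri, Adj s t → l = {s, t} → s ∈ A → t ∈ B → False := by
      rintro ⟨u, v, b⟩ ⟨u', v', b'⟩ hst rfl hs ht
      rw [adj_iff] at hst
      have e1 := hs.2.1
      have e2 := ht.2.1
      simp only at e1 e2 hst
      obtain ⟨rfl, rfl, rfl, rfl, rfl⟩ : b = true ∧ b' = false ∧ u' = u ∧ v = y ∧ v' = y - 1 := by
        rcases hst with ⟨h1, h2, h3⟩ | ⟨h1, h2, h3⟩
        · exact ⟨h1, h2, by omega, by omega, by omega⟩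
        · omega
      have : u' ∈ X.filter (fun c => vert v c ∈ S) :=
        Finset.mem_filter.2 ⟨(hX _).2 ⟨hs.1, ht.1⟩, hl⟩
      rw [h] at this
      exact hs.2.2 ⟨this, rfl, rfl⟩
    obtain ⟨s, t, hst, rfl⟩ := (hS.1 l hl).1
    rcases hlK s (by simp) with hs | hs <;> rcases hlK t (by simp) with ht | ht
    · left; rintro _ (rfl | rfl) <;> assumption
    · exact (cross s t hst rfl hs ht).elim
    · exact (cross t s (Adj.symm hst) (Set.pair_comm _ _) ht hs).elim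
    · right; rintro _ (rfl | rfl) <;> assumption
  · ext c
    rw [Finset.mem_filter]
    refine ⟨fun ⟨_, hc⟩ => ?_, fun hc => ⟨hC hc, h.1 ⟨c, hc, rfl⟩⟩⟩
    by_contra hcC
    have : vert y c ∉ vert y '' (C : Set ℤ) := by
      rintro ⟨c', hc', e⟩
      have : (c, y, true) ∈ vert y c' := by rw [e]; simp [vert]
      simp [vert] at this
      exact hcC (this ▸ hc')
    rcases h.2 _ ⟨hc, this⟩ with h' | h'
    · have := (h' (show (c, y - 1, false) ∈ vert y c by simp [vert])).2.1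
      simp at this
    · have := (h' (show (c, y, true) ∈ vert y c by simp [vert])).2.1
      simp at this

/-- Invariance under an involution preserving adjacency. -/
lemma M_preimage (ρ : Tri → Tri) (hρ : Function.Involutive ρ)
    (hadj : ∀ s t, Adj s t → Adj (ρ s) (ρ t)) (R : Set Tri) : M (ρ ⁻¹' R) = M R := by
  have key : ∀ (R : Set Tri) (S : Set (Set Tri)), S ∈ Tilings R →
      (fun l => ρ ⁻¹' l) '' S ∈ Tilings (ρ ⁻¹' R) := by
    intro R S hS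
    refine ⟨?_, ?_⟩
    · rintro _ ⟨l, hl, rfl⟩
      refine ⟨?_, preimage_mono (hS.1 l hl).2⟩
      obtain ⟨s, t, hst, rfl⟩ := (hS.1 l hl).1
      refine ⟨ρ s, ρ t, hadj s t hst, ?_⟩
      ext a
      simp only [mem_preimage, mem_insert_iff, mem_singleton_iff]
      rw [hρ.eq_iff, hρ.eq_iff]
    · intro t ht
      obtain ⟨l, ⟨hl, htl⟩, hu⟩ := hS.2 _ ht
      refine ⟨ρ ⁻¹' l, ⟨⟨l, hl, rfl⟩, htl⟩, ?_⟩
      rintro _ ⟨⟨l', hl', rfl⟩, h⟩
      rw [hu l' ⟨hl', h⟩]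
  have pp : ∀ l : Set Tri, ρ ⁻¹' (ρ ⁻¹' l) = l := fun l => by
    ext a; simp [hρ a]
  have inv : Function.Involutive (fun S : Set (Set Tri) => (fun l => ρ ⁻¹' l) '' S) := by
    intro S
    simp only [image_image, pp, image_id']
  rw [M, M]
  symm
  refine Set.ncard_congr (fun S _ => (fun l => ρ ⁻¹' l) '' S) (fun S hS => key R S hS)
    (fun S S' _ _ h => inv.injective h) fun S hS => ⟨_, ?_, inv S⟩
  have := key _ S hS
  rwa [pp] at this

end Pool.Agent.Lib.MP_0b03d8_co
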