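import Pool.Agent.Lib.MP_0b03d8_co.Vand

set_option autoImplicit false

open Finset

namespace Pool.Agent.Lib.MP_0b03d8_co

lemma finite_of_bounds {R : Set Tri} (a b c d : ℤ)
    (h : ∀ t ∈ R, a ≤ t.1 ∧ t.1 ≤ b ∧ c ≤ t.2.1 ∧ t.2.1 ≤ d) : R.Finite := by
  refine ((Set.finite_Icc a b).prod ((Set.finite_Icc c d).prod Set.finite_univ)).subset ?_
  intro t ht
  have := h t ht
  exact ⟨⟨this.1, this.2.1⟩, ⟨this.2.2.1, this.2.2.2⟩, trivial⟩

/-- Trapezoid with dents `S` along its (long) bottom side. -/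
def TrapU (p q y y1 : ℤ) (S : Finset ℤ) : Set Tri :=
  {t | p ≤ t.1 ∧ y ≤ t.2.1 ∧ t.2.1 < y1 ∧ t.1 + t.2.1 + (if t.2.2 = true then 1 else 2) ≤ q ∧
    ¬ (t.1 ∈ S ∧ t.2.2 = true ∧ t.2.1 = y)}

lemma mem_rowCells_up (lo hi : ℤ) (O I : Finset ℤ) (u : ℤ) :
    2 * u ∈ rowCells lo hi O I ↔ (lo ≤ u ∧ u ≤ hi) ∧ u ∉ O := by
  simp only [rowCells, mem_filter, mem_Icc, show 2 * u / 2 = u by omega, show 2 * u % 2 = 0 by omega]
  simp

lemma mem_rowCells_down (lo hi : ℤ) (O I : Finset ℤ) (u : ℤ) :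
    2 * u + 1 ∈ rowCells lo hi O I ↔ (lo ≤ u ∧ u < hi) ∧ u ∉ I := by
  simp only [rowCells, mem_filter, mem_Icc, show (2 * u + 1) / 2 = u by omega,
    show (2 * u + 1) % 2 = 1 by omega]
  simp
  omega

theorem M_trapU (p q : ℤ) (k : ℕ) : ∀ (y : ℤ) (S : Finset ℤ), p + y + k ≤ q →
    (∀ u ∈ S, p ≤ u ∧ u < q - y) → (k = 0 → S = ∅) →
    (M (TrapU p q y (y + k) S) : ℝ) = if S.card = k then P S else 0 := by
  classical
  induction k with
  | zero =>
    intro y S _ _ h0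
    have : TrapU p q y (y + (0 : ℕ)) S = ∅ := by
      ext t
      simp only [TrapU, Set.mem_ofPred_eq, Set.mem_empty_iff_false, iff_false]
      omega
    rw [this, M_empty, h0 rfl]
    simp [P_empty]
  | succ k ih =>
    intro y S hq hS _
    push_cast at hq
    have hfin : (TrapU p q y (y + (k + 1 : ℕ)) S).Finite := by
      refine finite_of_bounds p (q - y) y (y + (k + 1 : ℕ)) fun t ht => ?_
      obtain ⟨h1, h2, h3, h4, -⟩ := ht
      split_ifs at h4 <;> omega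
    rw [M_split hfin (y + 1) (if k = 0 then ∅ else Ico p (q - y - 1)) (by
      intro c
      split_ifs with h <;> simp [TrapU] <;> omega), ← P_rec (lo := p) (hi := q - y - 1)
      (fun u hu => by have := hS u hu; omega) k]
    push_cast
    have key : ∀ C ∈ (if k = 0 then ∅ else Ico p (q - y - 1)).powerset,
        (M {t | t ∈ TrapU p q y (y + (k + 1)) S ∧ y + 1 ≤ t.2.1 ∧
          ¬ (t.1 ∈ C ∧ t.2.2 = true ∧ t.2.1 = y + 1)} : ℝ) *
        (M {t | t ∈ TrapU p q y (y + (k + 1)) S ∧ t.2.1 < y + 1 ∧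
          ¬ (t.1 ∈ C ∧ t.2.2 = false ∧ t.2.1 = y + 1 - 1)} : ℝ) =
        if Interl S C then (if C.card = k then P C else 0) else 0 := by
      intro C hC
      rw [mem_powerset] at hC
      have hC1 : ∀ u ∈ C, p ≤ u ∧ u < q - y - 1 := by
        intro u hu
        have := hC hu
        split_ifs at this
        · simp at this
        · exact mem_Ico.1 this
      have e1 : {t | t ∈ TrapU p q y (y + (k + 1)) S ∧ y + 1 ≤ t.2.1 ∧
          ¬ (t.1 ∈ C ∧ t.2.2 = true ∧ t.2.1 = y + 1)} = TrapU p q (y + 1) (y + 1 + k) C := by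
        ext ⟨u, v, b⟩
        simp only [TrapU, Set.mem_ofPred_eq]
        by_cases h1 : u ∈ S <;> by_cases h2 : u ∈ C <;> cases b <;> simp [h1, h2] <;> omega
      have e2 : {t | t ∈ TrapU p q y (y + (k + 1)) S ∧ t.2.1 < y + 1 ∧
          ¬ (t.1 ∈ C ∧ t.2.2 = false ∧ t.2.1 = y + 1 - 1)} =
          rowSet y (rowCells p (q - y - 1) S C) := by
        ext ⟨u, v, b⟩
        cases b
        · simp only [TrapU, rowSet, idx, Set.mem_ofPred_eq, Bool.false_eq_true, if_false,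
            mem_rowCells_down]
          by_cases h2 : u ∈ C <;> simp [h2] <;> omega
        · simp only [TrapU, rowSet, idx, Set.mem_ofPred_eq, if_true, add_zero, mem_rowCells_up]
          by_cases h1 : u ∈ S <;> simp [h1] <;> omega
      rw [e1, e2, M_row, ih (y + 1) C (by omega) (fun u hu => by have := hC1 u hu; omega)
        (fun h => by simpa [h] using hC)]
      simp only [rowCells_cond (show p ≤ q - y - 1 by omega)
        (fun u hu => by have := hS u hu; omega : ∀ u ∈ S, p ≤ u ∧ u ≤ q - y - 1) hC1]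
      split_ifs <;> simp
    rw [sum_congr rfl key]
    refine sum_subset (powerset_mono.2 (by split_ifs <;> simp)) fun C _ hC => ?_
    split_ifs with h1 h2 <;> try rfl
    by_cases hk : k = 0
    · rw [hk, card_eq_zero] at h2
      simp [h2] at hC
    · simp_all

/-- Upside-down trapezoid with dents `T` along its (long) top side. -/
def TrapD (w q y0 y : ℤ) (T : Finset ℤ) : Set Tri :=
  {t | t.1 < q ∧ y0 ≤ t.2.1 ∧ t.2.1 < y ∧ w ≤ t.1 + t.2.1 + (if t.2.2 = true then 0 else 1) ∧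
    ¬ (t.1 ∈ T ∧ t.2.2 = false ∧ t.2.1 = y - 1)}

/-- Reflection in the line `v = 0`. -/
def refl (t : Tri) : Tri :=
  (t.1 + t.2.1 + (if t.2.2 = true then 0 else 1), -t.2.1 - 1, !t.2.2)

lemma refl_invol : Function.Involutive refl := by
  rintro ⟨u, v, b⟩
  cases b <;> simp [refl] <;> omega

lemma refl_adj (s t : Tri) (h : Adj s t) : Adj (refl s) (refl t) := by
  obtain ⟨u, v, b⟩ := s
  obtain ⟨u', v', b'⟩ := t
  rw [adj_iff] at h ⊢
  cases b <;> cases b' <;> simp [refl] at h ⊢ <;> omega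

theorem M_trapD (w q y : ℤ) (k : ℕ) (T : Finset ℤ) (hq : w - y + k ≤ q)
    (hT : ∀ u ∈ T, w - y ≤ u ∧ u < q) (h0 : k = 0 → T = ∅) :
    (M (TrapD w q (y - k) y T) : ℝ) = if T.card = k then P T else 0 := by
  have e : TrapD w q (y - k) y T = refl ⁻¹' TrapU w q (-y) (-y + k) (T.image (· + y)) := by
    ext ⟨u, v, b⟩
    have : ∀ a, a ∈ T.image (· + y) ↔ a - y ∈ T := by
      intro a
      rw [mem_image]
      exact ⟨by rintro ⟨b, hb, rfl⟩; simpa using hb, fun h => ⟨_, h, by ring⟩⟩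
    simp only [TrapD, TrapU, refl, Set.mem_preimage, Set.mem_ofPred_eq, this]
    by_cases hv : v = y - 1
    · subst hv
      cases b
      · have e : u + (y - 1) + 1 - y = u := by ring
        simp only [Bool.false_eq_true, if_false, e]
        by_cases h1 : u ∈ T <;> simp [h1] <;> omega
      · simp
        omega
    · have h1 : ¬ (-v - 1 = -y) := by omega
      cases b <;> simp [hv, h1] <;> omega
  rw [e, M_preimage refl refl_invol refl_adj, M_trapU w q k (-y) _ (by omega) ?_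
    (fun h => by simp [h0 h]), card_image_of_injective _ (add_left_injective y), P_shift]
  intro u hu
  obtain ⟨a, ha, rfl⟩ := mem_image.1 hu
  have := hT a ha
  omega

/-- A hexagon with dents along its top side. -/
def Low (u0 u1 y0 y w0 w1 : ℤ) (T : Finset ℤ) : Set Tri :=
  {t | u0 ≤ t.1 ∧ t.1 < u1 ∧ y0 ≤ t.2.1 ∧ t.2.1 < y ∧
    w0 ≤ t.1 + t.2.1 + (if t.2.2 = true then 0 else 1) ∧
    t.1 + t.2.1 + (if t.2.2 = true then 1 else 2) ≤ w1 ∧
    ¬ (t.1 ∈ T ∧ t.2.2 = false ∧ t.2.1 = y - 1)}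

theorem M_low (u0 u1 y w0 w1 : ℤ) (k : ℕ) (T : Finset ℤ) (h1 : y - k ≤ w0 - u0)
    (h2 : y - k ≤ w1 - u1) (h3 : w0 - y ≤ u0) (h4 : w1 - y ≤ u1) (h5 : u0 ≤ w1 - y)
    (h6 : w0 - y + k ≤ u1) (hT : ∀ u ∈ T, u0 ≤ u ∧ u < w1 - y) (h0 : k = 0 → T = ∅) :
    (M (Low u0 u1 (y - k) y w0 w1 T) : ℝ) =
      if (Ico (w0 - y) u0 ∪ T ∪ Ico (w1 - y) u1).card = k then
        P (Ico (w0 - y) u0 ∪ T ∪ Ico (w1 - y) u1) else 0 := by
  set St : ℕ → Set Tri := fun j => {t | t ∈ TrapD w0 u1 (y - k) y T ∧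
    ¬ ((t.1 < u0 ∨ w1 < t.1 + t.2.1 + (if t.2.2 = true then 1 else 2)) ∧
      (y - j ≤ t.2.1 ∨ (t.2.1 = y - j - 1 ∧ t.2.2 = false)))} with hSt
  have e0 : St 0 = TrapD w0 u1 (y - k) y (Ico (w0 - y) u0 ∪ T ∪ Ico (w1 - y) u1) := by
    ext ⟨u, v, b⟩
    simp only [hSt, TrapD, Set.mem_ofPred_eq, mem_union, mem_Ico]
    by_cases hu : u ∈ T <;> cases b <;> simp [hu] <;> omega
  have ek : St k = Low u0 u1 (y - k) y w0 w1 T := by
    ext ⟨u, v, b⟩
    simp only [hSt, TrapD, Low, Set.mem_ofPred_eq]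
    by_cases hu : u ∈ T <;> cases b <;> simp [hu] <;> omega
  have step : ∀ j, j < k → M (St j) = M (St (j + 1)) := by
    intro j hj
    rw [M_forced (R := St j) (y - j - 1)
      {u | (u < u0 ∨ w1 < u + (y - j - 1) + 1) ∧ u < u1 ∧ w0 ≤ u + (y - j - 1)}]
    · congr 1
      ext ⟨u, v, b⟩
      simp only [hSt, TrapD, Set.mem_ofPred_eq, Set.mem_sdiff]
      by_cases hu : u ∈ T <;> cases b <;> simp [hu] <;> omega
    all_goals
      intro c hc
      simp only [hSt, TrapD, Set.mem_ofPred_eq] at hc ⊢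
      by_cases hu : c ∈ T <;> by_cases hu' : c - 1 ∈ T <;> simp [hu, hu'] <;> omega
  have all : ∀ j, j ≤ k → M (St 0) = M (St j) := by
    intro j hj
    induction j with
    | zero => rfl
    | succ j ih => rw [ih (by omega), step j (by omega)]
  rw [← ek, ← all k le_rfl, e0, M_trapD w0 u1 y k _ h6]
  · intro u hu
    simp only [mem_union, mem_Ico] at hu
    rcases hu with (hu | hu) | hu
    · omega
    · have := hT u hu; omega
    · omega
  · intro hk
    rw [h0 hk, Ico_eq_empty (by omega), Ico_eq_empty (by omega)]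
    simp

/-- A hexagon with up triangles removed above and down triangles removed below the line `v = y`. -/
def Reg (u0 u1 y0 y y1 w0 w1 : ℤ) (U D : Finset ℤ) : Set Tri :=
  {t | u0 ≤ t.1 ∧ t.1 < u1 ∧ y0 ≤ t.2.1 ∧ t.2.1 < y1 ∧
    w0 ≤ t.1 + t.2.1 + (if t.2.2 = true then 0 else 1) ∧
    t.1 + t.2.1 + (if t.2.2 = true then 1 else 2) ≤ w1 ∧
    ¬ (t.1 ∈ U ∧ t.2.2 = true ∧ t.2.1 = y) ∧ ¬ (t.1 ∈ D ∧ t.2.2 = false ∧ t.2.1 = y - 1)}

theorem M_reg (u0 u1 y w0 w1 : ℤ) (k k' : ℕ) (U D G : Finset ℤ) (h1 : y - k ≤ w0 - u0)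
    (h2 : y - k ≤ w1 - u1) (h3 : w0 - y ≤ u0) (h4 : w1 - y ≤ u1)
    (h6 : w0 - y + k ≤ u1) (h7 : u0 + y + k' ≤ w1) (hU : ∀ u ∈ U, u0 ≤ u ∧ u < w1 - y)
    (hD : ∀ u ∈ D, u0 ≤ u ∧ u < w1 - y) (hk : 0 < k) (h0 : k' = 0 → U = ∅)
    (hG : ∀ u, u ∈ G ↔ (u0 ≤ u ∧ u < w1 - y) ∧ u ∉ U ∧ u ∉ D) :
    (M (Reg u0 u1 (y - k) y (y + k') w0 w1 U D) : ℝ) = ∑ C ∈ G.powerset,
      (if (U ∪ C).card = k' then P (U ∪ C) else 0) *
      if (Ico (w0 - y) u0 ∪ (D ∪ C) ∪ Ico (w1 - y) u1).card = k then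
        P (Ico (w0 - y) u0 ∪ (D ∪ C) ∪ Ico (w1 - y) u1) else 0 := by
  have hfin : (Reg u0 u1 (y - k) y (y + k') w0 w1 U D).Finite := by
    refine finite_of_bounds u0 u1 (y - k) (y + k') fun t ht => ?_
    obtain ⟨a1, a2, a3, a4, -⟩ := ht
    omega
  rw [M_split hfin y (if k' = 0 then ∅ else G) (by
    intro c
    split_ifs with h
    · simp [Reg]; omega
    · rw [hG]
      by_cases a1 : c ∈ U <;> by_cases a2 : c ∈ D <;> simp [Reg, a1, a2]
      omega)]
  push_cast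
  refine Eq.trans ?_ (sum_subset (s₁ := (if k' = 0 then ∅ else G).powerset)
    (powerset_mono.2 (by split_ifs <;> simp)) ?_)
  · refine sum_congr rfl fun C hC => ?_
    rw [mem_powerset] at hC
    have hC1 : ∀ u ∈ C, u0 ≤ u ∧ u < w1 - y := by
      intro u hu
      have := hC hu
      split_ifs at this
      · simp at this
      · exact ((hG u).1 this).1
    have e1 : {t | t ∈ Reg u0 u1 (y - k) y (y + k') w0 w1 U D ∧ y ≤ t.2.1 ∧
        ¬ (t.1 ∈ C ∧ t.2.2 = true ∧ t.2.1 = y)} = TrapU u0 w1 y (y + k') (U ∪ C) := by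
      ext ⟨u, v, b⟩
      simp only [TrapU, Reg, Set.mem_ofPred_eq, mem_union]
      by_cases a1 : u ∈ U <;> by_cases a2 : u ∈ C <;> by_cases a3 : u ∈ D <;> cases b <;>
        simp [a1, a2, a3] <;> omega
    have e2 : {t | t ∈ Reg u0 u1 (y - k) y (y + k') w0 w1 U D ∧ t.2.1 < y ∧
        ¬ (t.1 ∈ C ∧ t.2.2 = false ∧ t.2.1 = y - 1)} = Low u0 u1 (y - k) y w0 w1 (D ∪ C) := by
      ext ⟨u, v, b⟩
      simp only [Low, Reg, Set.mem_ofPred_eq, mem_union]
      by_cases a1 : u ∈ U <;> by_cases a2 : u ∈ C <;> by_cases a3 : u ∈ D <;> cases b <;>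
        simp [a1, a2, a3] <;> omega
    rw [e1, e2, M_trapU u0 w1 k' y _ h7, M_low u0 u1 y w0 w1 k _ h1 h2 h3 h4 (by omega) h6]
    · intro u hu
      rcases mem_union.1 hu with hu | hu
      exacts [hD u hu, hC1 u hu]
    · omega
    · intro u hu
      rcases mem_union.1 hu with hu | hu
      exacts [hU u hu, hC1 u hu]
    · intro hk'
      rw [h0 hk']
      simpa [hk'] using hC
  · intro C hC hC'
    by_cases hk' : k' = 0
    · rw [if_neg, zero_mul]
      rw [hk', card_eq_zero, union_eq_empty]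
      rintro ⟨-, rfl⟩
      simp at hC'
    · simp_all

end Pool.Agent.Lib.MP_0b03d8_co
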