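import Pool.Agent.Lib.MP_0b03d8_co.Row

set_option autoImplicit false

open Finset Polynomial

namespace Pool.Agent.Lib.MP_0b03d8_co

/-- Scaled product of differences. -/
noncomputable def Del (c : ℝ) (S : Finset ℤ) : ℝ :=
  ∏ s ∈ S, ∏ t ∈ S, if s < t then ((t : ℝ) - s) / c else 1

/-- Scaled product of cross differences. -/
noncomputable def Cr (c : ℝ) (S T : Finset ℤ) : ℝ := ∏ s ∈ S, ∏ t ∈ T, |(t : ℝ) - s| / c

lemma Del_pos {c : ℝ} (hc : 0 < c) (S : Finset ℤ) : 0 < Del c S := by
  refine prod_pos fun s _ => prod_pos fun t _ => ?_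
  split_ifs with h
  · have : (s : ℝ) < t := by exact_mod_cast h
    exact div_pos (by linarith) hc
  · exact one_pos

lemma Cr_pos {c : ℝ} (hc : 0 < c) {S T : Finset ℤ} (h : Disjoint S T) : 0 < Cr c S T := by
  refine prod_pos fun s hs => prod_pos fun t ht => div_pos (abs_pos.2 ?_) hc
  intro e
  have : (t : ℝ) = s := by linarith
  have : t = s := by exact_mod_cast this
  exact Finset.disjoint_left.1 h hs (this ▸ ht)

lemma Del_union (c : ℝ) {S T : Finset ℤ} (h : Disjoint S T) :
    Del c (S ∪ T) = Del c S * Del c T * Cr c S T := by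
  unfold Del Cr
  simp only [prod_union h, prod_mul_distrib]
  have : (∏ s ∈ S, ∏ t ∈ T, if s < t then ((t : ℝ) - s) / c else 1) *
      (∏ t ∈ T, ∏ s ∈ S, if t < s then ((s : ℝ) - t) / c else 1) =
      ∏ s ∈ S, ∏ t ∈ T, |(t : ℝ) - s| / c := by
    rw [prod_comm (s := T), ← prod_mul_distrib]
    refine prod_congr rfl fun s hs => ?_
    rw [← prod_mul_distrib]
    refine prod_congr rfl fun t ht => ?_
    have hne : s ≠ t := fun e => Finset.disjoint_left.1 h hs (e ▸ ht)
    rcases lt_or_gt_of_ne hne with h1 | h1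
    · have : (s : ℝ) < t := by exact_mod_cast h1
      rw [if_pos h1, if_neg h1.not_gt, mul_one, abs_of_pos (by linarith)]
    · have : (t : ℝ) < s := by exact_mod_cast h1
      rw [if_neg h1.not_gt, if_pos h1, one_mul, abs_of_neg (by linarith), neg_sub]
  rw [← this]
  ring

lemma Cr_union_left (c : ℝ) {S S' : Finset ℤ} (h : Disjoint S S') (T : Finset ℤ) :
    Cr c (S ∪ S') T = Cr c S T * Cr c S' T := prod_union h

lemma Cr_union_right (c : ℝ) (S : Finset ℤ) {T T' : Finset ℤ} (h : Disjoint T T') :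
    Cr c S (T ∪ T') = Cr c S T * Cr c S T' := by
  unfold Cr
  simp only [prod_union h, prod_mul_distrib]

lemma Cr_comm (c : ℝ) (S T : Finset ℤ) : Cr c S T = Cr c T S := by
  unfold Cr
  rw [prod_comm]
  simp only [abs_sub_comm]

lemma Del_image (c : ℝ) {k : ℕ} {a : Fin k → ℤ} (ha : StrictMono a) :
    Del c (univ.image a) = ∏ i, ∏ j ∈ Ioi i, ((a j : ℝ) - a i) / c := by
  unfold Del
  rw [prod_image fun _ _ _ _ h => ha.injective h]
  refine prod_congr rfl fun i _ => ?_
  rw [prod_image fun _ _ _ _ h => ha.injective h, ← prod_filter]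
  refine prod_congr ?_ fun _ _ => rfl
  ext j
  simp [ha.lt_iff_lt]

lemma Del_shift (c : ℝ) (S : Finset ℤ) (d : ℤ) : Del c (S.image (· + d)) = Del c S := by
  unfold Del
  rw [prod_image fun _ _ _ _ h => add_left_injective d h]
  refine prod_congr rfl fun i _ => ?_
  rw [prod_image fun _ _ _ _ h => add_left_injective d h]
  simp

lemma image_orderEmb (S : Finset ℤ) {k : ℕ} (h : S.card = k) :
    univ.image (S.orderEmbOfFin h) = S := by
  apply Finset.coe_injective
  simp

lemma Del_scale (c : ℝ) (S : Finset ℤ) {k : ℕ} (h : S.card = k) :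
    Del c S = Del 1 S * ∏ i : Fin k, ∏ _j ∈ Ioi i, c⁻¹ := by
  rw [← image_orderEmb S h, Del_image _ (S.orderEmbOfFin h).strictMono,
    Del_image _ (S.orderEmbOfFin h).strictMono, ← prod_mul_distrib]
  refine prod_congr rfl fun i _ => ?_
  rw [← prod_mul_distrib]
  refine prod_congr rfl fun j _ => ?_
  rw [div_one, div_eq_mul_inv]

/-- Scaled hyperfactorial. -/
noncomputable def Hf (c : ℝ) (k : ℕ) : ℝ := Del c (Ico 0 (k : ℤ))

lemma Hf_pos {c : ℝ} (hc : 0 < c) (k : ℕ) : 0 < Hf c k := Del_pos hc _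

/-- The Cohn-Larsen-Propp product. -/
noncomputable def P (S : Finset ℤ) : ℝ := Del 1 S / Hf 1 S.card

lemma P_scale {c : ℝ} (hc : 0 < c) (S : Finset ℤ) {k : ℕ} (h : S.card = k) :
    P S = Del c S / Hf c k := by
  rw [P, h, Hf, Hf, Del_scale c S h, Del_scale c (Ico 0 (k : ℤ)) (k := k) (by simp),
    mul_div_mul_right]
  exact (prod_pos fun _ _ => prod_pos fun _ _ => inv_pos.2 hc).ne'

lemma P_shift (S : Finset ℤ) (d : ℤ) : P (S.image (· + d)) = P S := by
  rw [P, P, Del_shift, card_image_of_injective _ (add_left_injective d)]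

lemma P_empty : P ∅ = 1 := by simp [P, Hf, Del]

lemma Hf_succ (k : ℕ) : Hf 1 (k + 1) = k.factorial * Hf 1 k := by
  have e : Ico (0 : ℤ) ((k + 1 : ℕ) : ℤ) = Ico (0 : ℤ) k ∪ {(k : ℤ)} := by
    ext a; simp only [mem_Ico, mem_union, mem_singleton]; push_cast; omega
  rw [Hf, e, Del_union _ (by simp), Hf]
  have h1 : Del 1 {(k : ℤ)} = 1 := by simp [Del]
  have h2 : Cr 1 (Ico (0 : ℤ) k) {(k : ℤ)} = k.factorial := by
    have : Ico (0 : ℤ) k = (range k).image (fun i : ℕ => (i : ℤ)) := by
      ext a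
      simp only [mem_Ico, mem_image, mem_range]
      exact ⟨fun h => ⟨a.toNat, by omega, by omega⟩, by rintro ⟨i, hi, rfl⟩; omega⟩
    rw [Cr, this, prod_image fun _ _ _ _ h => by exact_mod_cast h, ← Nat.descFactorial_self,
      Nat.descFactorial_eq_prod_range]
    push_cast
    refine prod_congr rfl fun i hi => ?_
    have hi' := (mem_range.1 hi).le
    have : (i : ℝ) ≤ k := by exact_mod_cast hi'
    simp only [prod_singleton, Int.cast_natCast, div_one]
    rw [abs_of_nonneg (by linarith), Nat.cast_sub hi']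
  rw [h1, h2]
  ring

lemma desc_sum (j : ℕ) (a b : ℤ) (hab : a ≤ b) :
    ∑ x ∈ Ico a b, (descPochhammer ℝ j).eval (x : ℝ) = ((j : ℝ) + 1)⁻¹ *
      ((descPochhammer ℝ (j + 1)).eval (b : ℝ) - (descPochhammer ℝ (j + 1)).eval (a : ℝ)) := by
  induction b, hab using Int.leInduction with
  | base => simp
  | succ b hb ih =>
    have e : Ico a (b + 1) = insert b (Ico a b) := by
      ext x; simp only [mem_Ico, mem_insert]; omega
    rw [e, sum_insert (by simp), ih]
    have h1 : (descPochhammer ℝ (j + 1)).eval ((b + 1 : ℤ) : ℝ) =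
        ((b : ℝ) + 1) * (descPochhammer ℝ j).eval (b : ℝ) := by
      rw [descPochhammer_succ_left]
      simp [eval_comp]
    rw [h1, descPochhammer_succ_eval]
    have : (j : ℝ) + 1 ≠ 0 := by positivity
    field_simp
    ring

lemma vand_det {k : ℕ} (a : Fin k → ℤ) :
    ∏ i, ∏ j ∈ Ioi i, ((a j : ℝ) - a i) / 1 =
      (Matrix.of fun i j : Fin k => (descPochhammer ℝ j).eval (a i : ℝ)).det := by
  rw [← Matrix.det_eval_matrixOfPolynomials_eq_det_vandermonde (fun i => (a i : ℝ))
    (fun j : Fin k => descPochhammer ℝ j) (fun j => descPochhammer_natDegree ℝ j)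
    (fun j => monic_descPochhammer ℝ j), Matrix.det_vandermonde]
  simp

lemma vand_rec {k : ℕ} {o : Fin (k + 1) → ℤ} (ho : StrictMono o) :
    ∑ f ∈ Fintype.piFinset fun i : Fin k => Ico (o i.castSucc) (o i.succ),
      ∏ i, ∏ j ∈ Ioi i, ((f j : ℝ) - f i) / 1 =
      (k.factorial : ℝ)⁻¹ * ∏ i, ∏ j ∈ Ioi i, ((o j : ℝ) - o i) / 1 := by
  simp only [vand_det]
  have h1 := (Matrix.detRowAlternating (n := Fin k) (R := ℝ)).toMultilinearMap.map_sum_finset
    (fun (_ : Fin k) (x : ℤ) (j : Fin k) => (descPochhammer ℝ j).eval (x : ℝ))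
    (fun i : Fin k => Ico (o i.castSucc) (o i.succ))
  have h2 : ∑ f ∈ Fintype.piFinset fun i : Fin k => Ico (o i.castSucc) (o i.succ),
      (Matrix.of fun i j : Fin k => (descPochhammer ℝ j).eval (f i : ℝ)).det =
      (Matrix.of fun i j : Fin k => ((j : ℝ) + 1)⁻¹ *
        ((descPochhammer ℝ (j + 1)).eval (o i.succ : ℝ) -
          (descPochhammer ℝ (j + 1)).eval (o i.castSucc : ℝ))).det := by
    refine h1.symm.trans ?_
    show Matrix.det _ = _
    congr 1
    ext i j
    simp only [Finset.sum_apply, Matrix.of_apply]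
    exact desc_sum j _ _ (ho.monotone Fin.castSucc_lt_succ.le)
  rw [h2]
  set B : Matrix (Fin (k + 1)) (Fin (k + 1)) ℝ := Matrix.of fun i j =>
    Fin.cases ((descPochhammer ℝ j).eval (o 0 : ℝ)) (fun i' : Fin k =>
      (descPochhammer ℝ j).eval (o i'.succ : ℝ) - (descPochhammer ℝ j).eval (o i'.castSucc : ℝ)) i
    with hB
  have h3 : (Matrix.of fun i j : Fin (k + 1) => (descPochhammer ℝ j).eval (o i : ℝ)).det = B.det :=
    Matrix.det_eq_of_forall_row_eq_smul_add_pred (fun _ => 1) (fun j => by simp [hB])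
      (fun i j => by simp [hB])
  rw [h3, Matrix.det_succ_column_zero, Fin.sum_univ_succ, Finset.sum_eq_zero (fun i _ => by simp [hB])]
  have h4 := Matrix.det_mul_row (fun j : Fin k => ((j : ℝ) + 1)⁻¹)
    (B.submatrix (Fin.succAbove 0) Fin.succ)
  have h5 : ∏ j : Fin k, ((j : ℝ) + 1)⁻¹ = (k.factorial : ℝ)⁻¹ := by
    rw [prod_inv_distrib, Fin.prod_univ_eq_prod_range (fun j => ((j : ℝ) + 1)) k,
      ← prod_range_add_one_eq_factorial]
    push_cast
    rfl
  rw [h5] at h4
  have h6 : B 0 0 = 1 := by simp [hB]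
  rw [h6]
  simp only [Fin.val_zero, pow_zero, one_mul, add_zero]
  rw [← h4]
  congr 1

open Classical in
lemma P_rec {lo hi : ℤ} {O : Finset ℤ} (hO : ∀ u ∈ O, lo ≤ u ∧ u ≤ hi) (k : ℕ) :
    ∑ I ∈ (Ico lo hi).powerset, (if Interl O I then (if I.card = k then P I else 0) else 0) =
      if O.card = k + 1 then P O else 0 := by
  split_ifs with h
  · have ho : StrictMono (O.orderEmbOfFin h) := (O.orderEmbOfFin h).strictMono
    have := sum_interl ho (lo := lo) (hi := hi) (fun i => hO _ (O.orderEmbOfFin_mem h i))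
      (fun I => if I.card = k then P I else 0)
    rw [image_orderEmb] at this
    have hD := Del_image 1 ho
    rw [image_orderEmb] at hD
    rw [this, P, h, Hf_succ, hD]
    have e := vand_rec ho
    have : ∀ f ∈ Fintype.piFinset fun i : Fin k =>
        Ico (O.orderEmbOfFin h i.castSucc) (O.orderEmbOfFin h i.succ),
        (if (univ.image f).card = k then P (univ.image f) else 0) =
          (∏ i, ∏ j ∈ Ioi i, ((f j : ℝ) - f i) / 1) / Hf 1 k := by
      intro f hf
      have hm : StrictMono f := by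
        intro i j hij
        rw [Fintype.mem_piFinset] at hf
        have h1 := (Finset.mem_Ico.1 (hf i)).2
        have h2 := (Finset.mem_Ico.1 (hf j)).1
        have : O.orderEmbOfFin h i.succ ≤ O.orderEmbOfFin h j.castSucc := ho.monotone (by
          rw [Fin.le_def]; simp; exact hij)
        omega
      have hc : (univ.image f).card = k := by
        rw [card_image_of_injective _ hm.injective]; simp
      rw [if_pos hc, P, hc, Del_image _ hm]
    rw [sum_congr rfl this, ← sum_div, e]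
    have := Hf_pos one_pos k
    have : (k.factorial : ℝ) ≠ 0 := by positivity
    field_simp
  · refine sum_eq_zero fun I _ => ?_
    split_ifs with h1 h2
    · exact (h (by rw [h1.1, h2])).elim
    · rfl
    · rfl

end Pool.Agent.Lib.MP_0b03d8_co
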